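import Pool.Agent.CapHalf.Spec

/-!
# CapHalf, AffA: the recursion for affine caps

If all caps of `AG(n, q)` have at most `a` points, then the caps `A` of `AG(n+1, q)` satisfy
`|A| (q^n + a) ≤ q^n (q a + 1)`, `q ≥ 3`. Elementary version of the argument of Meshulam and of Bierbrauer
and Edel: for `ξ ≠ 0` let `n t` be the number of points of `A` with `ξ x = t`, fix `l ≠ 0, 1`; the number of the
triples of `A` with `ξ x = l ξ y + (1 - l) ξ z` is at least `a k^2 - (q a - k) ∑ n t ^ 2`; sum over `ξ`.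
-/

set_option linter.unusedSectionVars false

noncomputable section

namespace Pool.Agent.CapHalf

open Finset Pool.Agent.Caps
open scoped Classical

variable {F : Type} [Field F] [Fintype F]

/-- The number of points of `A` with `ξ x = t`. -/
def sl {n : ℕ} (A : Finset (Fin n → F)) (ξ : Fin n → F) (t : F) : ℝ :=
  ((A.filter fun x => ξ ⬝ᵥ x = t).card : ℝ)

theorem sl_eq {n : ℕ} (A : Finset (Fin n → F)) (ξ : Fin n → F) (t : F) :
    sl A ξ t = ∑ x ∈ A, if ξ ⬝ᵥ x = t then (1 : ℝ) else 0 := by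
  rw [sl, card_filter]
  push_cast
  rfl

theorem sl_nonneg {n : ℕ} (A : Finset (Fin n → F)) (ξ : Fin n → F) (t : F) : 0 ≤ sl A ξ t :=
  Nat.cast_nonneg _

theorem aff_grp {n : ℕ} (A : Finset (Fin n → F)) (ξ : Fin n → F) (f : F → ℝ) :
    ∑ y ∈ A, f (ξ ⬝ᵥ y) = ∑ s, sl A ξ s * f s := by
  simp only [sl_eq, sum_mul, ite_mul, one_mul, zero_mul]
  rw [sum_comm]
  refine sum_congr rfl fun y _ => ?_
  rw [sum_ite_eq]
  simp

/-- The number of the `ξ` orthogonal to a vector. -/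
theorem card_perp {n : ℕ} (v : Fin (n + 1) → F) (hv : v ≠ 0) :
    ((univ : Finset (Fin (n + 1) → F)).filter fun ξ => ξ ⬝ᵥ v = 0).card = Fintype.card F ^ n := by
  let φ : (Fin (n + 1) → F) →ₗ[F] F := dotProductBilin F F v
  have hφ : ∀ y, φ y = v ⬝ᵥ y := fun y => rfl
  have hφ0 : φ ≠ 0 := by
    intro h0
    apply hv
    funext i
    have h1 := hφ (Pi.single i 1)
    rw [h0, dotProduct_single, mul_one] at h1
    exact h1.symm
  have hsurj : Function.Surjective φ := LinearMap.surjective hφ0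
  have hrk := φ.finrank_range_add_finrank_ker
  rw [Module.finrank_fin_fun, LinearMap.range_eq_top.2 hsurj, finrank_top, Module.finrank_self] at hrk
  have hker : Module.finrank F (LinearMap.ker φ) = n := by omega
  have h2 := Module.card_eq_pow_finrank (K := F) (V := LinearMap.ker φ)
  rw [hker] at h2
  rw [← h2, ← Fintype.card_subtype]
  refine Fintype.card_congr (Equiv.subtypeEquivRight fun y => ?_)
  rw [LinearMap.mem_ker, hφ, dotProduct_comm]

theorem card_perp' {n : ℕ} (v : Fin (n + 1) → F) :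
    (∑ ξ : Fin (n + 1) → F, if ξ ⬝ᵥ v = 0 then (1 : ℝ) else 0) =
      if v = 0 then (Fintype.card F : ℝ) ^ (n + 1) else (Fintype.card F : ℝ) ^ n := by
  split_ifs with hv
  · subst hv
    simp only [dotProduct_zero, if_true, sum_const, card_univ, nsmul_eq_mul, mul_one]
    rw [Fintype.card_fun, Fintype.card_fin]
    push_cast
    rfl
  · have h := card_perp v hv
    rw [card_filter] at h
    exact_mod_cast h

/-- Slices of affine caps. -/
theorem slice_le {n : ℕ} {a : ℝ}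
    (ha : ∀ B : Finset (Fin n → F), IsAffineCap F B → (B.card : ℝ) ≤ a)
    (A : Finset (Fin (n + 1) → F)) (hA : IsAffineCap F A) (ξ : Fin (n + 1) → F) (hξ : ξ ≠ 0)
    (t : F) : sl A ξ t ≤ a := by
  have ha0 : 0 ≤ a := by
    have h := ha ∅ (by intro x hx; simp at hx)
    simpa using h
  by_cases hne : (A.filter fun x => ξ ⬝ᵥ x = t).Nonempty
  swap
  · rw [not_nonempty_iff_eq_empty] at hne
    rw [sl, hne]
    simpa using ha0
  obtain ⟨x0, hx0⟩ := hne
  rw [mem_filter] at hx0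
  let φ : (Fin (n + 1) → F) →ₗ[F] F := dotProductBilin F F ξ
  have hφ : ∀ y, φ y = ξ ⬝ᵥ y := fun y => rfl
  have hφ0 : φ ≠ 0 := by
    intro h0
    apply hξ
    funext i
    have h1 := hφ (Pi.single i 1)
    rw [h0, dotProduct_single, mul_one] at h1
    exact h1.symm
  have hsurj : Function.Surjective φ := LinearMap.surjective hφ0
  have hrk := φ.finrank_range_add_finrank_ker
  rw [Module.finrank_fin_fun, LinearMap.range_eq_top.2 hsurj, finrank_top, Module.finrank_self] at hrk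
  have hker : Module.finrank F (LinearMap.ker φ) = n := by omega
  let e : (Fin n → F) ≃ₗ[F] LinearMap.ker φ :=
    LinearEquiv.ofFinrankEq _ _ (by rw [Module.finrank_fin_fun, hker])
  let g : (Fin n → F) → (Fin (n + 1) → F) := fun y => (e y : Fin (n + 1) → F) + x0
  have hg : Function.Injective g := by
    intro y y' h
    have h1 : (e y : Fin (n + 1) → F) = e y' := add_right_cancel h
    exact e.injective (Subtype.ext h1)
  have hB : IsAffineCap F (univ.filter fun y => g y ∈ A) := by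
    intro x hx y hy z hz l hl0 hl1 h
    rw [mem_filter] at hx hy hz
    refine hg (hA _ hx.2 _ hy.2 _ hz.2 l hl0 hl1 ?_)
    change (e y : Fin (n + 1) → F) + x0 = l • ((e x : Fin (n + 1) → F) + x0) +
      (1 - l) • ((e z : Fin (n + 1) → F) + x0)
    rw [h, map_add, map_smul, map_smul]
    simp only [Submodule.coe_add, Submodule.coe_smul]
    module
  refine le_trans ?_ (ha _ hB)
  rw [sl]
  norm_cast
  refine card_le_card_of_surjOn g ?_
  intro x hx
  rw [mem_coe, mem_filter] at hx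
  have hk : x - x0 ∈ LinearMap.ker φ := by
    rw [LinearMap.mem_ker, map_sub, hφ, hφ, hx.2, hx0.2, sub_self]
  obtain ⟨y, hy⟩ := e.surjective ⟨x - x0, hk⟩
  have hgy : g y = x := by
    change (e y : Fin (n + 1) → F) + x0 = x
    rw [hy]
    exact sub_add_cancel _ _
  refine ⟨y, ?_, hgy⟩
  rw [mem_coe, mem_filter]
  exact ⟨mem_univ _, by rw [hgy]; exact hx.1⟩

/-- The number of the triples with `ξ x = l ξ y + (1 - l) ξ z`. -/
def S3 {n : ℕ} (A : Finset (Fin n → F)) (l : F) (ξ : Fin n → F) : ℝ :=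
  ∑ y ∈ A, ∑ z ∈ A, sl A ξ (l * (ξ ⬝ᵥ y) + (1 - l) * (ξ ⬝ᵥ z))

/-- The number of the pairs with `ξ x = ξ y`. -/
def P2 {n : ℕ} (A : Finset (Fin n → F)) (ξ : Fin n → F) : ℝ := ∑ y ∈ A, sl A ξ (ξ ⬝ᵥ y)

theorem S3_ge {n : ℕ} {a : ℝ} (A : Finset (Fin n → F)) (ξ : Fin n → F) {l : F} (hl0 : l ≠ 0)
    (hl1 : l ≠ 1) (ha : ∀ t, sl A ξ t ≤ a) :
    a * (A.card : ℝ) ^ 2 - ((Fintype.card F : ℝ) * a - A.card) * P2 A ξ ≤ S3 A l ξ := by
  have h1l : (1 : F) - l ≠ 0 := sub_ne_zero.2 (Ne.symm hl1)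
  have e1 : P2 A ξ = ∑ s, sl A ξ s * sl A ξ s := aff_grp A ξ (sl A ξ)
  have e2 : ∑ s, sl A ξ s = (A.card : ℝ) := by
    have h := aff_grp A ξ fun _ => (1 : ℝ)
    simp only [sum_const, nsmul_eq_mul, mul_one] at h
    exact h.symm
  have e3 : ∑ t : F, (a - sl A ξ t) = (Fintype.card F : ℝ) * a - A.card := by
    rw [sum_sub_distrib, e2, sum_const, card_univ, nsmul_eq_mul]
  have e4 : a * (A.card : ℝ) ^ 2 - S3 A l ξ =
      ∑ s, ∑ s', sl A ξ s * (sl A ξ s' * (a - sl A ξ (l * s + (1 - l) * s'))) := by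
    have h1 : ∀ u : F, ∑ z ∈ A, (a - sl A ξ (u + (1 - l) * (ξ ⬝ᵥ z))) =
        ∑ s', sl A ξ s' * (a - sl A ξ (u + (1 - l) * s')) := fun u =>
      aff_grp A ξ fun s' => a - sl A ξ (u + (1 - l) * s')
    have h2 := aff_grp A ξ fun s => ∑ s', sl A ξ s' * (a - sl A ξ (l * s + (1 - l) * s'))
    simp only [← h1] at h2
    simp only [← h1, ← mul_sum]
    rw [← h2, S3]
    simp only [sum_sub_distrib, sum_const, nsmul_eq_mul]
    ring
  have b1 : ∀ s : F, ∑ s', (a - sl A ξ (l * s + (1 - l) * s')) =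
      (Fintype.card F : ℝ) * a - A.card := by
    intro s
    rw [← e3]
    exact ((Equiv.mulLeft₀ (1 - l) h1l).trans (Equiv.addLeft (l * s))).sum_comp
      fun t => a - sl A ξ t
  have b2 : ∀ s' : F, ∑ s, (a - sl A ξ (l * s + (1 - l) * s')) =
      (Fintype.card F : ℝ) * a - A.card := by
    intro s'
    rw [← e3]
    exact ((Equiv.mulLeft₀ l hl0).trans (Equiv.addRight ((1 - l) * s'))).sum_comp
      fun t => a - sl A ξ t
  have h5 : ∑ s, ∑ s', sl A ξ s * (sl A ξ s' * (a - sl A ξ (l * s + (1 - l) * s'))) ≤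
      ∑ s, ∑ s', (1 / 2 * (sl A ξ s * sl A ξ s * (a - sl A ξ (l * s + (1 - l) * s'))) +
        1 / 2 * (sl A ξ s' * sl A ξ s' * (a - sl A ξ (l * s + (1 - l) * s')))) := by
    refine sum_le_sum fun s _ => sum_le_sum fun s' _ => ?_
    have h6 : 0 ≤ a - sl A ξ (l * s + (1 - l) * s') := sub_nonneg.2 (ha _)
    nlinarith [mul_nonneg h6 (sq_nonneg (sl A ξ s - sl A ξ s'))]
  have h7 : ∑ s, ∑ s', (1 / 2 * (sl A ξ s * sl A ξ s * (a - sl A ξ (l * s + (1 - l) * s'))) +
        1 / 2 * (sl A ξ s' * sl A ξ s' * (a - sl A ξ (l * s + (1 - l) * s')))) =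
      ((Fintype.card F : ℝ) * a - A.card) * P2 A ξ := by
    simp only [sum_add_distrib]
    have h8 : ∑ s, ∑ s', 1 / 2 * (sl A ξ s * sl A ξ s * (a - sl A ξ (l * s + (1 - l) * s'))) =
        1 / 2 * (((Fintype.card F : ℝ) * a - A.card) * P2 A ξ) := by
      rw [e1, mul_sum, mul_sum]
      refine sum_congr rfl fun s _ => ?_
      rw [← mul_sum, ← mul_sum, b1]
      ring
    have h9 : ∑ s, ∑ s', 1 / 2 * (sl A ξ s' * sl A ξ s' * (a - sl A ξ (l * s + (1 - l) * s'))) =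
        1 / 2 * (((Fintype.card F : ℝ) * a - A.card) * P2 A ξ) := by
      rw [sum_comm, e1, mul_sum, mul_sum]
      refine sum_congr rfl fun s _ => ?_
      rw [← mul_sum, ← mul_sum, b2]
      ring
    rw [h8, h9]
    ring
  linarith

theorem P2_sum {n : ℕ} (A : Finset (Fin (n + 1) → F)) :
    ∑ ξ, P2 A ξ = (A.card : ℝ) * (Fintype.card F : ℝ) ^ (n + 1) +
      A.card * (A.card - 1) * (Fintype.card F : ℝ) ^ n := by
  have h1 : ∀ y ∈ A, ∑ x ∈ A, (∑ ξ : Fin (n + 1) → F, if ξ ⬝ᵥ x = ξ ⬝ᵥ y then (1 : ℝ) else 0) =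
      (Fintype.card F : ℝ) ^ (n + 1) + (A.card - 1) * (Fintype.card F : ℝ) ^ n := by
    intro y hy
    have h2 : ∀ x, (∑ ξ : Fin (n + 1) → F, if ξ ⬝ᵥ x = ξ ⬝ᵥ y then (1 : ℝ) else 0) =
        (if x = y then (Fintype.card F : ℝ) ^ (n + 1) - (Fintype.card F : ℝ) ^ n else 0) +
          (Fintype.card F : ℝ) ^ n := by
      intro x
      have h3 := card_perp' (x - y)
      simp only [dotProduct_sub, sub_eq_zero] at h3
      rw [h3]
      split_ifs <;> ring
    simp only [h2, sum_add_distrib, sum_const, nsmul_eq_mul]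
    rw [sum_ite_eq' A y, if_pos hy]
    ring
  simp only [P2, sl_eq]
  rw [sum_comm]
  have h4 : ∀ y ∈ A, ∑ ξ : Fin (n + 1) → F, ∑ x ∈ A, (if ξ ⬝ᵥ x = ξ ⬝ᵥ y then (1 : ℝ) else 0) =
      (Fintype.card F : ℝ) ^ (n + 1) + (A.card - 1) * (Fintype.card F : ℝ) ^ n := by
    intro y hy
    rw [sum_comm]
    exact h1 y hy
  rw [sum_congr rfl h4, sum_const, nsmul_eq_mul]
  ring

theorem S3_sum {n : ℕ} (A : Finset (Fin (n + 1) → F)) (hA : IsAffineCap F A) {l : F} (hl0 : l ≠ 0)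
    (hl1 : l ≠ 1) :
    ∑ ξ, S3 A l ξ = (A.card : ℝ) ^ 3 * (Fintype.card F : ℝ) ^ n +
      A.card * ((Fintype.card F : ℝ) ^ (n + 1) - (Fintype.card F : ℝ) ^ n) := by
  have h2 : ∀ y ∈ A, ∀ z ∈ A, ∀ x ∈ A,
      (∑ ξ : Fin (n + 1) → F, if ξ ⬝ᵥ x = l * (ξ ⬝ᵥ y) + (1 - l) * (ξ ⬝ᵥ z) then (1 : ℝ) else 0) =
        (if y = z then (if x = z then (Fintype.card F : ℝ) ^ (n + 1) - (Fintype.card F : ℝ) ^ n
          else 0) else 0) + (Fintype.card F : ℝ) ^ n := by
    intro y hy z hz x hx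
    have h3 := card_perp' (x - (l • y + (1 - l) • z))
    simp only [dotProduct_sub, dotProduct_add, dotProduct_smul, smul_eq_mul, sub_eq_zero] at h3
    rw [h3]
    by_cases hyz : y = z
    · subst hyz
      have h4 : l • y + (1 - l) • y = y := by module
      rw [h4]
      by_cases hx : x = y
      · rw [if_pos hx, if_pos rfl, if_pos hx]
        ring
      · rw [if_neg hx, if_pos rfl, if_neg hx]
        ring
    · rw [if_neg hyz, zero_add, if_neg]
      intro h5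
      exact hyz (hA y hy x hx z hz l hl0 hl1 h5)
  have h6 : ∑ ξ, S3 A l ξ = ∑ y ∈ A, ∑ z ∈ A, ∑ x ∈ A,
      (∑ ξ : Fin (n + 1) → F,
        if ξ ⬝ᵥ x = l * (ξ ⬝ᵥ y) + (1 - l) * (ξ ⬝ᵥ z) then (1 : ℝ) else 0) := by
    simp only [S3, sl_eq]
    rw [sum_comm]
    refine sum_congr rfl fun y _ => ?_
    rw [sum_comm]
    refine sum_congr rfl fun z _ => ?_
    rw [sum_comm]
  rw [h6, sum_congr rfl fun y hy => sum_congr rfl fun z hz => sum_congr rfl fun x hx =>
    h2 y hy z hz x hx]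
  have h7 : ∀ y ∈ A, ∑ z ∈ A, ∑ x ∈ A,
      ((if y = z then (if x = z then (Fintype.card F : ℝ) ^ (n + 1) - (Fintype.card F : ℝ) ^ n
          else 0) else 0) + (Fintype.card F : ℝ) ^ n) =
      ((Fintype.card F : ℝ) ^ (n + 1) - (Fintype.card F : ℝ) ^ n) +
        (A.card : ℝ) ^ 2 * (Fintype.card F : ℝ) ^ n := by
    intro y hy
    have h8 : ∀ z ∈ A, ∑ x ∈ A,
        ((if y = z then (if x = z then (Fintype.card F : ℝ) ^ (n + 1) - (Fintype.card F : ℝ) ^ n
          else 0) else 0) + (Fintype.card F : ℝ) ^ n) =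
        (if y = z then (Fintype.card F : ℝ) ^ (n + 1) - (Fintype.card F : ℝ) ^ n else 0) +
          A.card * (Fintype.card F : ℝ) ^ n := by
      intro z hz
      rw [sum_add_distrib, sum_const, nsmul_eq_mul]
      split_ifs with h
      · rw [sum_ite_eq' A z, if_pos hz]
      · rw [sum_const_zero]
    rw [sum_congr rfl h8, sum_add_distrib, sum_ite_eq A y, if_pos hy, sum_const, nsmul_eq_mul]
    ring
  rw [sum_congr rfl h7, sum_const, nsmul_eq_mul]
  ring

/-- **The recursion.** -/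
theorem aff_rec {n : ℕ} {a : ℝ} (hq : 3 ≤ Fintype.card F)
    (ha : ∀ B : Finset (Fin n → F), IsAffineCap F B → (B.card : ℝ) ≤ a)
    (A : Finset (Fin (n + 1) → F)) (hA : IsAffineCap F A) :
    (A.card : ℝ) * ((Fintype.card F : ℝ) ^ n + a) ≤
      (Fintype.card F : ℝ) ^ n * ((Fintype.card F : ℝ) * a + 1) := by
  have hq' : (3 : ℝ) ≤ (Fintype.card F : ℝ) := by exact_mod_cast hq
  have ha0 : 0 ≤ a := by
    have h := ha ∅ (by intro x hx; simp at hx)
    simpa using h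
  obtain ⟨l, hl0, hl1⟩ : ∃ l : F, l ≠ 0 ∧ l ≠ 1 := by
    by_contra hcon
    push Not at hcon
    have h1 : (univ : Finset F) ⊆ {0, 1} := by
      intro x _
      rw [mem_insert, mem_singleton]
      by_cases hx : x = 0
      · exact Or.inl hx
      · exact Or.inr (hcon x hx)
    have h2 := card_le_card h1
    have h3 : ({0, 1} : Finset F).card ≤ 2 := card_le_two
    rw [card_univ] at h2
    omega
  set q : ℝ := (Fintype.card F : ℝ) with hqd
  set k : ℝ := (A.card : ℝ) with hkd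
  have hk0 : 0 ≤ k := Nat.cast_nonneg _
  have hQ : 0 < q ^ n := by positivity
  rcases eq_or_lt_of_le hk0 with hk | hk
  · rw [← hk, zero_mul]
    positivity
  have hsl : ∀ ξ : Fin (n + 1) → F, ξ ≠ 0 → ∀ t, sl A ξ t ≤ a := fun ξ hξ t =>
    slice_le ha A hA ξ hξ t
  have h1 : ∀ ξ : Fin (n + 1) → F, ξ ≠ 0 → a * k ^ 2 - (q * a - k) * P2 A ξ ≤ S3 A l ξ :=
    fun ξ hξ => S3_ge A ξ hl0 hl1 (hsl ξ hξ)
  have h2 : ∑ ξ ∈ (univ : Finset (Fin (n + 1) → F)).erase 0, (a * k ^ 2 - (q * a - k) * P2 A ξ) ≤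
      ∑ ξ ∈ (univ : Finset (Fin (n + 1) → F)).erase 0, S3 A l ξ :=
    sum_le_sum fun ξ hξ => h1 ξ (ne_of_mem_erase hξ)
  have hz : ∀ t : F, sl A 0 t = if t = 0 then k else 0 := by
    intro t
    rw [sl_eq]
    by_cases ht : t = 0
    · simp [ht, zero_dotProduct, hkd]
    · rw [if_neg ht]
      refine sum_eq_zero fun x _ => ?_
      rw [zero_dotProduct, if_neg (Ne.symm ht)]
  have hP0 : P2 A 0 = k ^ 2 := by
    simp only [P2, zero_dotProduct, hz, if_true, sum_const, nsmul_eq_mul]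
    ring
  have hS0 : S3 A l 0 = k ^ 3 := by
    simp only [S3, zero_dotProduct, mul_zero, add_zero, hz, if_true, sum_const, nsmul_eq_mul]
    ring
  have h3 : ∑ ξ ∈ (univ : Finset (Fin (n + 1) → F)).erase 0, S3 A l ξ =
      k ^ 3 * q ^ n + k * (q ^ (n + 1) - q ^ n) - k ^ 3 := by
    rw [sum_erase_eq_sub (mem_univ _), S3_sum A hA hl0 hl1, hS0]
  have h4 : ∑ ξ ∈ (univ : Finset (Fin (n + 1) → F)).erase 0, P2 A ξ =
      k * q ^ (n + 1) + k * (k - 1) * q ^ n - k ^ 2 := by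
    rw [sum_erase_eq_sub (mem_univ _), P2_sum A, hP0]
  have h5 : ∑ ξ ∈ (univ : Finset (Fin (n + 1) → F)).erase 0, (a * k ^ 2 - (q * a - k) * P2 A ξ) =
      (q ^ (n + 1) - 1) * (a * k ^ 2) -
        (q * a - k) * (k * q ^ (n + 1) + k * (k - 1) * q ^ n - k ^ 2) := by
    have h10 : ∑ ξ ∈ (univ : Finset (Fin (n + 1) → F)).erase 0, (q * a - k) * P2 A ξ =
        (q * a - k) * ∑ ξ ∈ (univ : Finset (Fin (n + 1) → F)).erase 0, P2 A ξ :=
      (mul_sum _ _ _).symm
    have h11 : ∑ ξ ∈ (univ : Finset (Fin (n + 1) → F)).erase 0, a * k ^ 2 =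
        (q ^ (n + 1) - 1) * (a * k ^ 2) := by
      rw [sum_erase_eq_sub (mem_univ _), sum_const, card_univ, Fintype.card_fun, Fintype.card_fin,
        nsmul_eq_mul]
      push_cast
      ring
    rw [sum_sub_distrib, h10, h11, h4]
  rw [h3, h5] at h2
  have h6 : 0 ≤ k * (q - 1) * (q ^ n * (q * a + 1) - k * (q ^ n + a)) := by
    have h7 : k * (q - 1) * (q ^ n * (q * a + 1) - k * (q ^ n + a)) =
        (k ^ 3 * q ^ n + k * (q ^ (n + 1) - q ^ n) - k ^ 3) -
        ((q ^ (n + 1) - 1) * (a * k ^ 2) -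
        (q * a - k) * (k * q ^ (n + 1) + k * (k - 1) * q ^ n - k ^ 2)) := by
      rw [pow_succ]
      ring
    rw [h7]
    linarith
  have h8 : 0 < k * (q - 1) := mul_pos hk (by linarith)
  have h9 := nonneg_of_mul_nonneg_right h6 h8
  linarith

end Pool.Agent.CapHalf
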