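import Pool.Agent.CapHalf.Cnt

/-!
# CapHalf, AffB: affine and projective caps
-/

set_option linter.unusedSectionVars false

noncomputable section

namespace Pool.Agent.CapHalf

open Finset Pool.Agent.Caps
open scoped Classical

variable {F : Type} [Field F] [Fintype F]

theorem emb_ne {d : ℕ} (x : Fin d → F) : (Fin.cons 1 x : Fin (d + 1) → F) ≠ 0 := by
  intro h
  have h1 := congrFun h 0
  rw [Fin.cons_zero] at h1
  exact one_ne_zero h1

/-- The embedding of the affine space. -/
def emb {d : ℕ} (x : Fin d → F) : Projectivization F (Fin (d + 1) → F) :=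
  Projectivization.mk F (Fin.cons 1 x) (emb_ne x)

theorem emb_inj {d : ℕ} : Function.Injective (emb (F := F) (d := d)) := by
  intro x y h
  unfold emb at h
  rw [Projectivization.mk_eq_mk_iff'] at h
  obtain ⟨a, ha⟩ := h
  have h0 := congrFun ha 0
  rw [Pi.smul_apply, Fin.cons_zero, Fin.cons_zero, smul_eq_mul, mul_one] at h0
  funext i
  have h1 := congrFun ha i.succ
  rw [Pi.smul_apply, Fin.cons_succ, Fin.cons_succ, h0, one_smul] at h1
  exact h1.symm

/-- Affine caps are projective caps. -/
theorem emb_cap {d : ℕ} (A : Finset (Fin d → F)) (hA : IsAffineCap F A) :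
    IsCap F d (A.image emb) := by
  intro W hW
  have h1 : {P : Projectivization F (Fin (d + 1) → F) | P ∈ A.image emb ∧ P.submodule ≤ W} ⊆
      ((A.filter fun x => (Fin.cons 1 x : Fin (d + 1) → F) ∈ W).image emb : Finset _) := by
    rintro P ⟨hP, hPW⟩
    obtain ⟨x, hx, rfl⟩ := mem_image.1 hP
    rw [mem_coe, mem_image]
    refine ⟨x, mem_filter.2 ⟨hx, hPW ?_⟩, rfl⟩
    unfold emb
    rw [Projectivization.submodule_mk]
    exact Submodule.mem_span_singleton_self _
  refine le_trans (Set.ncard_le_ncard h1 (finite_toSet _)) ?_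
  rw [Set.ncard_coe_finset]
  refine le_trans card_image_le ?_
  by_contra hcon
  rw [not_le] at hcon
  obtain ⟨x, hx, y, hy, z, hz, hxy, hxz, hyz⟩ := two_lt_card.1 hcon
  rw [mem_filter] at hx hy hz
  have hli : LinearIndependent F ![(Fin.cons 1 x : Fin (d + 1) → F), Fin.cons 1 z] := by
    rw [LinearIndependent.pair_iff]
    intro s t hst
    have h0 := congrFun hst 0
    simp only [Pi.add_apply, Pi.smul_apply, Fin.cons_zero, smul_eq_mul, mul_one,
      Pi.zero_apply] at h0
    by_cases hs : s = 0
    · subst hs
      rw [zero_add] at h0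
      exact ⟨rfl, h0⟩
    · exfalso
      apply hxz
      have ht : t = -s := by linear_combination h0
      funext i
      have h2 := congrFun hst i.succ
      simp only [Pi.add_apply, Pi.smul_apply, Fin.cons_succ, smul_eq_mul, Pi.zero_apply, ht] at h2
      have h3 : s * (x i - z i) = 0 := by linear_combination h2
      rcases mul_eq_zero.1 h3 with h4 | h4
      · exact absurd h4 hs
      · exact sub_eq_zero.1 h4
  have hspan : Submodule.span F (Set.range ![(Fin.cons 1 x : Fin (d + 1) → F), Fin.cons 1 z]) = W := by
    refine Submodule.eq_of_le_of_finrank_eq ?_ ?_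
    · rw [Submodule.span_le]
      rintro _ ⟨i, rfl⟩
      fin_cases i
      · exact hx.2
      · exact hz.2
    · rw [finrank_span_eq_card hli, Fintype.card_fin, hW]
  have hy2 := hy.2
  rw [← hspan, Matrix.range_cons, Matrix.range_cons, Matrix.range_empty, Set.union_empty,
    Set.singleton_union, Submodule.mem_span_pair] at hy2
  obtain ⟨s, t, hst⟩ := hy2
  have h0 := congrFun hst 0
  simp only [Pi.add_apply, Pi.smul_apply, Fin.cons_zero, smul_eq_mul, mul_one] at h0
  have hyv : y = s • x + (1 - s) • z := by
    funext i
    have h2 := congrFun hst i.succ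
    simp only [Pi.add_apply, Pi.smul_apply, Fin.cons_succ, smul_eq_mul] at h2
    simp only [Pi.add_apply, Pi.smul_apply, smul_eq_mul]
    rw [← h2]
    linear_combination (z i) * h0
  refine hxz (hA x hx.1 y hy.1 z hz.1 s ?_ ?_ hyv)
  · rintro rfl
    apply hyz
    rw [hyv]
    module
  · rintro rfl
    apply hxy
    rw [hyv]
    module

/-- The points of a projective cap outside a hyperplane form an affine cap. -/
theorem proj_aff {d : ℕ} (K : Finset (Projectivization F (Fin (d + 1) → F))) (hK : IsCap F d K)
    (h : Projectivization F (Fin (d + 1) → F)) :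
    ∃ A : Finset (Fin d → F), IsAffineCap F A ∧
      (K.filter fun p => ¬ Inc F (d + 1) p h).card ≤ A.card := by
  let φ : (Fin (d + 1) → F) →ₗ[F] F := dotProductBilin F F h.rep
  have hφ : ∀ y, φ y = h.rep ⬝ᵥ y := fun y => rfl
  have hφ0 : φ ≠ 0 := by
    intro h0
    apply h.rep_nonzero
    funext i
    have h1 := hφ (Pi.single i 1)
    rw [h0, dotProduct_single, mul_one] at h1
    exact h1.symm
  have hsurj : Function.Surjective φ := LinearMap.surjective hφ0
  have hrk := φ.finrank_range_add_finrank_ker
  rw [Module.finrank_fin_fun, LinearMap.range_eq_top.2 hsurj, finrank_top, Module.finrank_self] at hrk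
  have hker : Module.finrank F (LinearMap.ker φ) = d := by omega
  let e : (Fin d → F) ≃ₗ[F] LinearMap.ker φ :=
    LinearEquiv.ofFinrankEq _ _ (by rw [Module.finrank_fin_fun, hker])
  obtain ⟨v0, hv0⟩ := hsurj 1
  let g : (Fin d → F) → (Fin (d + 1) → F) := fun y => (e y : Fin (d + 1) → F) + v0
  have hφg : ∀ y, φ (g y) = 1 := by
    intro y
    change φ ((e y : Fin (d + 1) → F) + v0) = 1
    rw [map_add, hv0, LinearMap.mem_ker.1 (e y).2, zero_add]
  have hg : Function.Injective g := by
    intro y y' hh
    have h1 : (e y : Fin (d + 1) → F) = e y' := add_right_cancel hh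
    exact e.injective (Subtype.ext h1)
  have hg0 : ∀ y, g y ≠ 0 := by
    intro y h1
    have h2 := hφg y
    rw [h1, map_zero] at h2
    exact zero_ne_one h2
  let G : (Fin d → F) → Projectivization F (Fin (d + 1) → F) := fun y =>
    Projectivization.mk F (g y) (hg0 y)
  have hG : Function.Injective G := by
    intro y y' hh
    change Projectivization.mk F (g y) (hg0 y) = Projectivization.mk F (g y') (hg0 y') at hh
    rw [Projectivization.mk_eq_mk_iff'] at hh
    obtain ⟨a, ha⟩ := hh
    have h1 := congrArg φ ha
    rw [map_smul, hφg, hφg, smul_eq_mul, mul_one] at h1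
    rw [h1, one_smul] at ha
    exact (hg ha).symm
  refine ⟨univ.filter fun y => G y ∈ K, ?_, ?_⟩
  · intro x hx y hy z hz l hl0 hl1 hyl
    rw [mem_filter] at hx hy hz
    by_contra hxz
    have hgy : g y = l • g x + (1 - l) • g z := by
      change (e y : Fin (d + 1) → F) + v0 = l • ((e x : Fin (d + 1) → F) + v0) +
        (1 - l) • ((e z : Fin (d + 1) → F) + v0)
      rw [hyl, map_add, map_smul, map_smul]
      simp only [Submodule.coe_add, Submodule.coe_smul]
      module
    have hli : LinearIndependent F ![g x, g z] := by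
      rw [LinearIndependent.pair_iff]
      intro s t hst
      have h1 := congrArg φ hst
      rw [map_add, map_smul, map_smul, hφg, hφg, map_zero, smul_eq_mul, smul_eq_mul, mul_one,
        mul_one] at h1
      have ht : t = -s := by linear_combination h1
      rw [ht] at hst
      have h2 : s • (g x - g z) = 0 := by
        rw [← hst]
        module
      rcases smul_eq_zero.1 h2 with h3 | h3
      · exact ⟨h3, by rw [ht, h3, neg_zero]⟩
      · exact absurd (hg (sub_eq_zero.1 h3)) hxz
    have hW : Module.finrank F (Submodule.span F (Set.range ![g x, g z])) = 2 := by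
      rw [finrank_span_eq_card hli, Fintype.card_fin]
    have h2 := hK _ hW
    have h3 : (({G x, G y, G z} : Finset _) : Set (Projectivization F (Fin (d + 1) → F))) ⊆
        {P | P ∈ K ∧ P.submodule ≤ Submodule.span F (Set.range ![g x, g z])} := by
      have hgx : g x ∈ Submodule.span F (Set.range ![g x, g z]) :=
        Submodule.subset_span ⟨0, rfl⟩
      have hgz : g z ∈ Submodule.span F (Set.range ![g x, g z]) :=
        Submodule.subset_span ⟨1, rfl⟩
      intro P hP
      rw [mem_coe, mem_insert, mem_insert, mem_singleton] at hP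
      rcases hP with rfl | rfl | rfl
      · refine ⟨hx.2, ?_⟩
        rw [Projectivization.submodule_mk, Submodule.span_singleton_le_iff_mem]
        exact hgx
      · refine ⟨hy.2, ?_⟩
        rw [Projectivization.submodule_mk, Submodule.span_singleton_le_iff_mem, hgy]
        exact Submodule.add_mem _ (Submodule.smul_mem _ _ hgx) (Submodule.smul_mem _ _ hgz)
      · refine ⟨hz.2, ?_⟩
        rw [Projectivization.submodule_mk, Submodule.span_singleton_le_iff_mem]
        exact hgz
    have h4 := Set.ncard_le_ncard h3 (K.finite_toSet.subset fun P hP => hP.1)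
    rw [Set.ncard_coe_finset] at h4
    have hxy : x ≠ y := by
      rintro rfl
      apply hxz
      have h5 : (1 - l) • (x - z) = 0 := by
        have h6 : (1 - l) • (x - z) = x - (l • x + (1 - l) • z) := by module
        rw [h6, ← hyl, sub_self]
      rcases smul_eq_zero.1 h5 with h6 | h6
      · exact absurd (sub_eq_zero.1 h6).symm hl1
      · exact sub_eq_zero.1 h6
    have hyz : y ≠ z := by
      rintro rfl
      apply hxz
      have h5 : l • (x - y) = 0 := by
        have h6 : l • (x - y) = (l • x + (1 - l) • y) - y := by module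
        rw [h6, ← hyl, sub_self]
      rcases smul_eq_zero.1 h5 with h6 | h6
      · exact absurd h6 hl0
      · exact sub_eq_zero.1 h6
    have h7 : ({G x, G y, G z} : Finset (Projectivization F (Fin (d + 1) → F))).card = 3 :=
      card_eq_three.2 ⟨_, _, _, fun h => hxy (hG h), fun h => hxz (hG h), fun h => hyz (hG h), rfl⟩
    omega
  · refine card_le_card_of_surjOn G ?_
    intro p hp
    rw [mem_coe, mem_filter] at hp
    have hp2 : φ p.rep ≠ 0 := by
      intro h1
      apply hp.2
      rw [Inc, dotProduct_comm, ← hφ, h1]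
    have hk : (φ p.rep)⁻¹ • p.rep - v0 ∈ LinearMap.ker φ := by
      rw [LinearMap.mem_ker, map_sub, map_smul, hv0, smul_eq_mul, inv_mul_cancel₀ hp2, sub_self]
    obtain ⟨y, hy⟩ := e.surjective ⟨_, hk⟩
    have hgy : g y = (φ p.rep)⁻¹ • p.rep := by
      change (e y : Fin (d + 1) → F) + v0 = _
      rw [hy]
      exact sub_add_cancel _ _
    have hGy : G y = p := by
      change Projectivization.mk F (g y) (hg0 y) = p
      conv_rhs => rw [← p.mk_rep]
      rw [Projectivization.mk_eq_mk_iff']
      exact ⟨(φ p.rep)⁻¹, hgy.symm⟩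
    refine ⟨y, ?_, hGy⟩
    rw [mem_coe, mem_filter]
    exact ⟨mem_univ _, by rw [hGy]; exact hp.1⟩

/-- Some hyperplane contains few points. -/
theorem exists_few (hCnt : S_Cnt) {d : ℕ}
    (K : Finset (Projectivization F (Fin (d + 1 + 1) → F))) :
    ∃ h : Projectivization F (Fin (d + 1 + 1) → F),
      Fintype.card F * (K.filter fun p => Inc F (d + 1 + 1) p h).card ≤ K.card := by
  have h1 : ∀ p : Projectivization F (Fin (d + 1 + 1) → F),
      ((univ : Finset (Projectivization F (Fin (d + 1 + 1) → F))).filter
        fun h => Inc F (d + 1 + 1) p h).card = ∑ i ∈ range (d + 1), Fintype.card F ^ i := by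
    intro p
    have h2 := (hCnt F (d + 1 + 1) 1 fun _ => p.rep).2
      (LinearIndependent.of_subsingleton 0 p.rep_nonzero)
    rw [← Fintype.card_subtype, ← Nat.card_eq_fintype_card]
    refine Eq.trans ?_ h2
    refine Nat.card_congr (Equiv.subtypeEquivRight fun h => ?_)
    exact ⟨fun hh _ => hh, fun hh => hh 0⟩
  have h2 : Fintype.card (Projectivization F (Fin (d + 1 + 1) → F)) =
      Fintype.card F * (∑ i ∈ range (d + 1), Fintype.card F ^ i) + 1 := by
    rw [← Nat.card_eq_fintype_card,
      Projectivization.card_of_finrank F (Fin (d + 1 + 1) → F) (Module.finrank_fin_fun F),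
      sum_range_succ', pow_zero, mul_sum, Nat.card_eq_fintype_card]
    congr 1
    exact sum_congr rfl fun i _ => pow_succ' _ _
  have h3 : ∑ p ∈ K, ((univ : Finset (Projectivization F (Fin (d + 1 + 1) → F))).filter
      fun h => Inc F (d + 1 + 1) p h).card =
      ∑ h : Projectivization F (Fin (d + 1 + 1) → F),
        (K.filter fun p => Inc F (d + 1 + 1) p h).card := by
    simp only [card_filter]
    exact sum_comm
  rw [sum_congr rfl fun p _ => h1 p, sum_const, smul_eq_mul] at h3
  by_contra hcon
  push Not at hcon
  have h4 : Fintype.card (Projectivization F (Fin (d + 1 + 1) → F)) * (K.card + 1) ≤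
      ∑ h : Projectivization F (Fin (d + 1 + 1) → F),
        Fintype.card F * (K.filter fun p => Inc F (d + 1 + 1) p h).card := by
    rw [← card_univ, ← smul_eq_mul]
    exact card_nsmul_le_sum _ _ _ fun h _ => hcon h
  rw [← mul_sum, ← h3, h2] at h4
  set θ := ∑ i ∈ range (d + 1), Fintype.card F ^ i
  nlinarith

end Pool.Agent.CapHalf
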