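import Pool.Agent.CapHalf.Spec

/-!
# CapHalf: the main inequality

`tAna : S_Ana`.
-/

noncomputable section

namespace Pool.Agent.CapHalf

open Finset Pool.Agent.Caps
open scoped Classical

variable {P H : Type} [Fintype P] [Fintype H]

private theorem t4_pos {q : ℝ} (hq : 3 ≤ q) : 0 < t4 q := by
  unfold t4
  positivity

private theorem t3_pos {q : ℝ} (hq : 3 ≤ q) : 0 < t3 q := by
  unfold t3
  positivity

private theorem sumT {I : P → H → Prop} {q : ℝ} (hD : DD I q) (w : H → ℝ) :
    ∑ p, T I w p = t3 q * ∑ h, w h := by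
  unfold T
  rw [sum_comm, mul_sum]
  refine sum_congr rfl fun h _ => ?_
  rw [← sum_filter, sum_const, nsmul_eq_mul, hD.one h]

omit [Fintype P] in
private theorem sumKT {I : P → H → Prop} (K : Finset P) (w : H → ℝ) :
    ∑ p ∈ K, T I w p = ∑ h, w h * nn I K h := by
  unfold T nn
  rw [sum_comm]
  refine sum_congr rfl fun h _ => ?_
  rw [← sum_filter, sum_const, nsmul_eq_mul, mul_comm]

private theorem c0_eq {q : ℝ} (hq : 3 ≤ q) : c0 q = -(q ^ 2 * (q ^ 5 + 1) / t4 q ^ 2) := by
  have h := (t4_pos hq).ne'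
  unfold c0
  field_simp
  unfold t1 t2 t3 t4
  ring

private theorem c0_nonpos {q : ℝ} (hq : 3 ≤ q) : c0 q ≤ 0 := by
  rw [c0_eq hq]
  have := t4_pos hq
  have h : 0 ≤ q ^ 2 * (q ^ 5 + 1) / t4 q ^ 2 := by positivity
  linarith

private theorem D_eq {q k : ℝ} (hq : 3 ≤ q) :
    TM q k - TK q k = q ^ 2 * (k * (1 - 2 / t4 q) - (q - 2)) := by
  have h := (t4_pos hq).ne'
  unfold TM TK mu
  field_simp
  unfold t1 t2 t3 t4
  ring

private theorem D_pos {q k : ℝ} (hq : 3 ≤ q) (hk : q ≤ k) : 0 < TM q k - TK q k := by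
  rw [D_eq hq]
  have h4 := t4_pos hq
  have h5 : q ^ 2 ≤ t4 q := by
    unfold t4
    nlinarith [pow_pos (show (0 : ℝ) < q by linarith) 3, pow_pos (show (0 : ℝ) < q by linarith) 4]
  have h6 : 2 / t4 q ≤ 2 / q ^ 2 := by
    apply div_le_div_of_nonneg_left (by norm_num) (by positivity) h5
  have h7 : k * (2 / t4 q) ≤ k * (2 / q ^ 2) := mul_le_mul_of_nonneg_left h6 (by linarith)
  have h8 : k * (1 - 2 / q ^ 2) ≥ q * (1 - 2 / q ^ 2) := by
    apply mul_le_mul_of_nonneg_right hk
    have : 2 / q ^ 2 ≤ 1 := by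
      rw [div_le_one (by positivity)]
      nlinarith
    linarith
  have h9 : q * (1 - 2 / q ^ 2) = q - 2 / q := by
    field_simp
  have h10 : 2 / q < 2 := by
    rw [div_lt_iff₀ (by linarith)]
    linarith
  apply mul_pos (by positivity)
  nlinarith

theorem tAna (hPar : S_Par) (hCub : S_Cub) (hMom : S_Mom) : S_Ana := by
  intro P H _ _ I q K hq hD hC hqk hB0
  obtain ⟨m1, m2, m3, mK, mO⟩ := hMom P H I q K hC
  have hq2 : 2 ≤ q := by linarith
  have ht4 := t4_pos hq
  have ht3 := t3_pos hq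
  have hDp := D_pos hq hqk
  have hcardH := hC.all
  have hcardP := hD.all
  generalize hk : (K.card : ℝ) = k at *
  have hk0 : 0 < k := by linarith
  set μ : ℝ := mu q k with hμ
  have hμ0 : 0 ≤ μ := by
    rw [hμ]
    unfold mu
    positivity
  have hμt : t4 q * μ = k * t3 q := by
    rw [hμ]
    unfold mu
    field_simp
  set Z : H → ℝ := fun h => nn I K h - μ with hZ
  set w : H → ℝ := fun h => (nn I K h - μ) ^ 2 with hw
  set v : H → ℝ := fun h => if Z h < 0 then Z h ^ 2 else 0 with hv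
  have hn0 : ∀ h, 0 ≤ nn I K h := fun h => by
    unfold nn
    exact Nat.cast_nonneg _
  have hw0 : ∀ h, 0 ≤ w h := fun h => sq_nonneg _
  have hv0 : ∀ h, 0 ≤ v h := by
    intro h
    simp only [hv]
    split_ifs
    · exact sq_nonneg _
    · exact le_rfl
  have hvw : ∀ h, v h ≤ w h := by
    intro h
    simp only [hv]
    split_ifs
    · exact le_rfl
    · exact hw0 h
  have hconst : ∀ c : ℝ, ∑ _h : H, c = t4 q * c := by
    intro c
    rw [sum_const, nsmul_eq_mul, card_univ, hcardH]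
  -- the sum of the squares
  have hW : ∑ h, w h = WW q k := by
    have e1 : ∀ h, w h = nn I K h ^ 2 - 2 * μ * nn I K h + μ ^ 2 := fun h => by
      simp only [hw]
      ring
    rw [sum_congr rfl fun h _ => e1 h, sum_add_distrib, sum_sub_distrib, ← mul_sum, m1, m2,
      hconst]
    have e2 : μ = k * t3 q / t4 q := rfl
    rw [e2]
    unfold WW
    have := ht4.ne'
    field_simp
    unfold t2 t3 t4
    ring
  -- the sum of the cubes
  have hB : ∑ h, -(Z h) ^ 3 = BB q k := by
    have e1 : ∀ h, -(Z h) ^ 3 = -(nn I K h ^ 3) + 3 * μ * nn I K h ^ 2 - 3 * μ ^ 2 * nn I K h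
        + μ ^ 3 := fun h => by
      simp only [hZ]
      ring
    rw [sum_congr rfl fun h _ => e1 h, sum_add_distrib, sum_sub_distrib, sum_add_distrib,
      sum_neg_distrib, ← mul_sum, ← mul_sum, m1, m2, m3, hconst]
    unfold BB
    have e2 : 3 * μ ^ 2 * (k * t3 q) = 3 * μ ^ 3 * t4 q := by
      rw [← hμt]
      ring
    rw [e2]
    simp only [← hμ]
    ring
  set A : ℝ := ∑ h, v h * (-(Z h)) with hA
  have hAB : BB q k ≤ A := by
    rw [← hB, hA]
    refine sum_le_sum fun h _ => ?_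
    simp only [hv]
    split_ifs with hneg
    · apply le_of_eq
      ring
    · rw [not_lt] at hneg
      have : 0 ≤ (Z h) ^ 3 := pow_nonneg hneg 3
      linarith
  have hA0 : 0 ≤ A := hB0.trans hAB
  have hv2 : ∑ h, v h ^ 2 ≤ μ * A := by
    rw [hA, mul_sum]
    refine sum_le_sum fun h _ => ?_
    simp only [hv]
    split_ifs with hneg
    · have h1 : -(Z h) ≤ μ := by
        simp only [hZ]
        linarith [hn0 h]
      have h2 : 0 < -(Z h) := by linarith
      have h3 : 0 ≤ (Z h) ^ 2 * -(Z h) := mul_nonneg (sq_nonneg _) h2.le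
      have h4 : (Z h ^ 2) ^ 2 = (Z h ^ 2 * -(Z h)) * -(Z h) := by ring
      rw [h4, mul_comm μ]
      exact mul_le_mul_of_nonneg_left h1 h3
    · simp
  -- the upper bound for T
  have hTle : ∀ p, T I w p ≤ TM q k := by
    intro p
    by_cases hp : p ∈ K
    · have := mK p hp
      rw [this]
      linarith
    · exact mO p hp
  have hmean : t3 q * (∑ h, w h) / t4 q ≤ TM q k := by
    rw [div_le_iff₀ ht4, ← sumT hD w]
    calc ∑ p, T I w p ≤ ∑ _p : P, TM q k := sum_le_sum fun p _ => hTle p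
      _ = TM q k * t4 q := by
        rw [sum_const, nsmul_eq_mul, card_univ, hcardP]
        ring
  have hG0 : 0 ≤ GG q k := by
    unfold GG
    rw [← hW]
    linarith
  set V : ℝ := ∑ h, v h with hV
  have hV0 : 0 ≤ V := sum_nonneg fun h _ => hv0 h
  have hVW : V ≤ ∑ h, w h := sum_le_sum fun h _ => hvw h
  set u : P → ℝ := fun p => T I v p - t3 q * V / t4 q with hu
  -- the sum of u over K
  have hKu : ∑ p ∈ K, u p = -A := by
    simp only [hu]
    rw [sum_sub_distrib, sumKT, sum_const, nsmul_eq_mul, hk, hA, ← sum_neg_distrib]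
    have e1 : k * (t3 q * V / t4 q) = ∑ h, v h * μ := by
      rw [← sum_mul, ← hV, hμ]
      unfold mu
      field_simp
    rw [e1, ← sum_sub_distrib]
    refine sum_congr rfl fun h _ => ?_
    simp only [hZ]
    ring
  set Q : ℝ := ∑ p ∈ K, u p ^ 2 with hQ
  have hQA : A ^ 2 ≤ k * Q := by
    have h1 := sq_sum_le_card_mul_sum_sq (s := K) (f := u)
    rw [hKu, hk, neg_sq] at h1
    exact h1
  have hQ0 : 0 ≤ Q := sum_nonneg fun p _ => sq_nonneg _
  set R : ℝ := ∑ p, u p ^ 2 with hR
  have hRle : R ≤ q ^ 3 * (μ * A) := by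
    have h1 := hPar P H I q hq2 hD v
    have h2 : R = q ^ 3 * (∑ h, v h ^ 2 - V ^ 2 / t4 q) := h1
    rw [h2]
    apply mul_le_mul_of_nonneg_left _ (by positivity)
    have h3 : 0 ≤ V ^ 2 / t4 q := by positivity
    linarith
  have hcub := hCub P H I q hq2 hD w v v hw0 hv0 hv0
  have hc := c0_nonpos hq
  have hW0 : 0 ≤ WW q k := by
    rw [← hW]
    exact sum_nonneg fun h _ => hw0 h
  rw [hW] at hVW
  have hcW : c0 q * WW q k ^ 3 ≤ c0 q * ((∑ h, w h) * V * V) := by
    rw [hW]
    apply mul_le_mul_of_nonpos_left _ hc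
    have h1 : V * V ≤ WW q k * WW q k := mul_le_mul hVW hVW hV0 hW0
    nlinarith
  have hsum : ∑ p, (T I w p - t3 q * (∑ h, w h) / t4 q) * u p * u p ≤
      GG q k * R - (TM q k - TK q k) * Q := by
    have e1 : GG q k * R - (TM q k - TK q k) * Q =
        ∑ p, (GG q k * u p ^ 2 - if p ∈ K then (TM q k - TK q k) * u p ^ 2 else 0) := by
      rw [sum_sub_distrib, ← mul_sum, ← hR, ← sum_filter, filter_mem_eq_inter, univ_inter,
        ← mul_sum, ← hQ]
    rw [e1]
    refine sum_le_sum fun p _ => ?_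
    have h2 : 0 ≤ u p ^ 2 := sq_nonneg _
    have e2 : (T I w p - t3 q * (∑ h, w h) / t4 q) * u p * u p =
        (T I w p - t3 q * (∑ h, w h) / t4 q) * u p ^ 2 := by ring
    rw [e2]
    have e3 : GG q k = TM q k - t3 q * (∑ h, w h) / t4 q := by
      unfold GG
      rw [hW]
    split_ifs with hp
    · have h3 := mK p hp
      rw [h3, e3]
      apply le_of_eq
      ring
    · rw [sub_zero, e3]
      exact mul_le_mul_of_nonneg_right (by linarith [mO p hp]) h2
  have hmain : c0 q * WW q k ^ 3 ≤ GG q k * (q ^ 3 * (μ * A)) - (TM q k - TK q k) * Q := by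
    have h1 := hcW.trans (hcub.trans hsum)
    have h2 := mul_le_mul_of_nonneg_left hRle hG0
    linarith
  -- the inequality for A
  have hfA : (TM q k - TK q k) * A ^ 2 ≤
      k * q ^ 3 * μ * GG q k * A + k * (-c0 q) * WW q k ^ 3 := by
    have h1 : (TM q k - TK q k) * A ^ 2 ≤ (TM q k - TK q k) * (k * Q) :=
      mul_le_mul_of_nonneg_left hQA hDp.le
    have h2 : k * ((TM q k - TK q k) * Q) ≤
        k * (GG q k * (q ^ 3 * (μ * A)) - c0 q * WW q k ^ 3) :=
      mul_le_mul_of_nonneg_left (by linarith) hk0.le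
    calc (TM q k - TK q k) * A ^ 2 ≤ (TM q k - TK q k) * (k * Q) := h1
      _ = k * ((TM q k - TK q k) * Q) := by ring
      _ ≤ k * (GG q k * (q ^ 3 * (μ * A)) - c0 q * WW q k ^ 3) := h2
      _ = k * q ^ 3 * μ * GG q k * A + k * (-c0 q) * WW q k ^ 3 := by ring
  set b : ℝ := k * q ^ 3 * μ * GG q k with hb
  set c : ℝ := k * (-c0 q) * WW q k ^ 3 with hc'
  have hb0 : 0 ≤ b := by positivity
  have hc0' : 0 ≤ c := by
    rw [hc']
    have : 0 ≤ -c0 q := by linarith
    positivity
  rcases hA0.eq_or_lt with hz | hpos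
  · have : BB q k = 0 := le_antisymm (hz ▸ hAB) hB0
    rw [this]
    simpa using hc0'
  · set D : ℝ := TM q k - TK q k with hDD
    set B : ℝ := BB q k with hBB
    have h1 : D * B ^ 2 * A ≤ (b * B + c) * A := by
      have e1 : D * B ^ 2 * A = (D * B * A) * B := by ring
      have e2 : (D * B * A) * B ≤ (D * B * A) * A :=
        mul_le_mul_of_nonneg_left hAB (by positivity)
      have e3 : (D * B * A) * A = B * (D * A ^ 2) := by ring
      have e4 : B * (D * A ^ 2) ≤ B * (b * A + c) := mul_le_mul_of_nonneg_left hfA hB0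
      have e5 : B * c ≤ A * c := mul_le_mul_of_nonneg_right hAB hc0'
      nlinarith
    exact le_of_mul_le_mul_right h1 hpos

end Pool.Agent.CapHalf
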