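import Pool.Agent.CapHalf.Spec

/-!
# CapHalf, Cnt: counting hyperplanes through points
-/

noncomputable section

namespace Pool.Agent.CapHalf

open Finset Pool.Agent.Caps
open scoped Classical

/-- The points of a subspace are counted by its dimension. -/
private theorem cnt_sub (F : Type) [Field F] [Fintype F] (n : ℕ) (M : Submodule F (Fin n → F)) :
    Nat.card {h : Projectivization F (Fin n → F) // h.rep ∈ M} =
      ∑ i ∈ range (Module.finrank F M), Fintype.card F ^ i := by
  have hinj : Function.Injective M.subtype := M.injective_subtype
  have hmem : ∀ p : Projectivization F M, (Projectivization.map M.subtype hinj p).rep ∈ M := by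
    intro p
    induction p using Projectivization.ind with
    | h v hv =>
      rw [Projectivization.map_mk]
      obtain ⟨a, ha⟩ := Projectivization.exists_smul_eq_mk_rep F (M.subtype v)
        (fun h => hv (hinj (by rw [h, map_zero])))
      rw [← ha]
      exact M.smul_mem _ v.2
  have hbij : Function.Bijective (fun p : Projectivization F M =>
      (⟨Projectivization.map M.subtype hinj p, hmem p⟩ :
        {h : Projectivization F (Fin n → F) // h.rep ∈ M})) := by
    constructor
    · intro p p' h
      exact Projectivization.map_injective M.subtype hinj (congrArg Subtype.val h)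
    · rintro ⟨h, hh⟩
      have h0 : (⟨h.rep, hh⟩ : M) ≠ 0 := fun e =>
        h.rep_nonzero (congrArg Subtype.val e)
      refine ⟨Projectivization.mk F ⟨h.rep, hh⟩ h0, Subtype.ext ?_⟩
      change Projectivization.map M.subtype hinj (Projectivization.mk F ⟨h.rep, hh⟩ h0) = h
      rw [Projectivization.map_mk]
      exact h.mk_rep
  rw [← Nat.card_congr (Equiv.ofBijective _ hbij), Projectivization.card_of_finrank F M rfl]
  simp only [Nat.card_eq_fintype_card]

theorem tCnt : S_Cnt := by
  intro F _ _ n j v
  let A : Matrix (Fin j) (Fin n) F := Matrix.of v
  have hcard : Nat.card {h : Projectivization F (Fin n → F) // ∀ i, v i ⬝ᵥ h.rep = 0} =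
      ∑ i ∈ range (Module.finrank F (LinearMap.ker A.mulVecLin)), Fintype.card F ^ i := by
    rw [← cnt_sub]
    refine Nat.card_congr (Equiv.subtypeEquivRight fun h => ?_)
    rw [LinearMap.mem_ker]
    exact ⟨fun hh => funext hh, fun hh i => congrFun hh i⟩
  have hrk := A.mulVecLin.finrank_range_add_finrank_ker
  rw [Module.finrank_fin_fun] at hrk
  rw [hcard]
  constructor
  · have hle : Module.finrank F (LinearMap.range A.mulVecLin) ≤ j := by
      refine (Submodule.finrank_le _).trans ?_
      rw [Module.finrank_fin_fun]
    exact sum_le_sum_of_subset (range_subset_range.2 (by omega))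
  · intro hv
    have h1 : Module.finrank F (LinearMap.range A.mulVecLin) = j := by
      have h2 : A.rank = Fintype.card (Fin j) := LinearIndependent.rank_matrix hv
      rw [Fintype.card_fin] at h2
      exact h2
    have h2 : Module.finrank F (LinearMap.ker A.mulVecLin) = n - j := by omega
    rw [h2]

end Pool.Agent.CapHalf
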