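import Pool.Agent.CapHalf.Spec

/-!
# Third moment on the point side
-/

noncomputable section

namespace Pool.Agent.CapHalf

open Finset Pool.Agent.Caps
open scoped Classical

section

variable {P H : Type} [Fintype P] [Fintype H]

private def cub_a (I : P → H → Prop) (p : P) (h : H) : ℝ := if I p h then 1 else 0

private theorem cub_T (I : P → H → Prop) (w : H → ℝ) (p : P) :
    T I w p = ∑ h, cub_a I p h * w h := by
  unfold T cub_a
  refine sum_congr rfl fun h _ => ?_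
  split_ifs <;> simp

private theorem cub_ex (F : P → H → ℝ) (X : P → ℝ) (w : H → ℝ) :
    ∑ p, X p * (∑ h, F p h * w h) = ∑ h, w h * ∑ p, X p * F p h := by
  simp_rw [mul_sum]
  rw [sum_comm]
  refine sum_congr rfl fun h _ => sum_congr rfl fun p _ => ?_
  ring

private theorem cub_one {I : P → H → Prop} {q : ℝ} (hD : DD I q) (h : H) :
    ∑ p, cub_a I p h = t3 q := by
  rw [← hD.one h]
  unfold cub_a
  rw [sum_boole]

private theorem cub_two {I : P → H → Prop} {q : ℝ} (hD : DD I q) (h h' : H) :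
    ∑ p, cub_a I p h * cub_a I p h' = t2 q + q ^ 3 * (if h = h' then 1 else 0) := by
  have e1 : ∀ p, cub_a I p h * cub_a I p h' = if I p h ∧ I p h' then 1 else 0 := by
    intro p
    unfold cub_a
    by_cases a1 : I p h <;> by_cases a2 : I p h' <;> simp [a1, a2]
  simp_rw [e1]
  rw [sum_boole]
  by_cases hh : h = h'
  · subst hh
    simp only [and_self, if_true]
    rw [hD.one h]
    unfold t3 t2
    ring
  · rw [hD.two h h' hh, if_neg hh]
    ring

private theorem cub_three {I : P → H → Prop} {q : ℝ} (hD : DD I q) (h h' h'' : H) :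
    t1 q + q ^ 2 * ((if h = h' then 1 else 0) + (if h = h'' then 1 else 0) +
      (if h' = h'' then 1 else 0)) +
      (q ^ 3 - 2 * q ^ 2) * (if h = h' then (if h' = h'' then 1 else 0) else 0) ≤
      ∑ p, cub_a I p h * cub_a I p h' * cub_a I p h'' := by
  have e1 : ∀ p, cub_a I p h * cub_a I p h' * cub_a I p h'' =
      if I p h ∧ I p h' ∧ I p h'' then 1 else 0 := by
    intro p
    unfold cub_a
    by_cases a1 : I p h <;> by_cases a2 : I p h' <;> by_cases a3 : I p h'' <;> simp [a1, a2, a3]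
  simp_rw [e1]
  rw [sum_boole]
  by_cases c1 : h = h'
  · subst c1
    by_cases c2 : h = h''
    · subst c2
      simp only [and_self, if_true]
      rw [hD.one h]
      unfold t3 t1
      linarith
    · have e2 : (univ.filter fun p => I p h ∧ I p h ∧ I p h'') =
          univ.filter fun p => I p h ∧ I p h'' := by
        ext p
        simp
      rw [e2, hD.two h h'' c2]
      simp only [if_true, if_neg c2]
      unfold t2 t1
      linarith
  · by_cases c2 : h = h''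
    · subst c2
      have e2 : (univ.filter fun p => I p h ∧ I p h' ∧ I p h) =
          univ.filter fun p => I p h ∧ I p h' := by
        ext p
        simp only [mem_filter, mem_univ, true_and]
        tauto
      rw [e2, hD.two h h' c1]
      simp only [if_neg c1, if_true, if_neg (Ne.symm c1)]
      unfold t2 t1
      linarith
    · by_cases c3 : h' = h''
      · subst c3
        have e2 : (univ.filter fun p => I p h ∧ I p h' ∧ I p h') =
            univ.filter fun p => I p h ∧ I p h' := by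
          ext p
          simp
        rw [e2, hD.two h h' c1]
        simp only [if_neg c1, if_true]
        unfold t2 t1
        linarith
      · simp only [if_neg c1, if_neg c2, if_neg c3]
        have := hD.three h h' h''
        linarith

private theorem cub_sum3 {I : P → H → Prop} {q : ℝ} (hD : DD I q) (w₁ w₂ w₃ : H → ℝ)
    (h1 : ∀ h, 0 ≤ w₁ h) (h2 : ∀ h, 0 ≤ w₂ h) (h3 : ∀ h, 0 ≤ w₃ h) :
    t1 q * ((∑ h, w₁ h) * (∑ h, w₂ h) * (∑ h, w₃ h)) +
      q ^ 2 * ((∑ h, w₂ h * w₃ h) * (∑ h, w₁ h) + (∑ h, w₁ h * w₃ h) * (∑ h, w₂ h) +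
        (∑ h, w₁ h * w₂ h) * (∑ h, w₃ h)) + (q ^ 3 - 2 * q ^ 2) * ∑ h, w₁ h * w₂ h * w₃ h ≤
      ∑ p, T I w₁ p * T I w₂ p * T I w₃ p := by
  have e1 : ∑ p, T I w₁ p * T I w₂ p * T I w₃ p =
      ∑ h, w₃ h * ∑ h', w₂ h' * ∑ h'', w₁ h'' *
        ∑ p, cub_a I p h * cub_a I p h' * cub_a I p h'' := by
    have s1 : ∑ p, T I w₁ p * T I w₂ p * T I w₃ p =
        ∑ h, w₃ h * ∑ p, (T I w₁ p * T I w₂ p) * cub_a I p h := by
      rw [← cub_ex]
      exact sum_congr rfl fun p _ => by rw [cub_T I w₃ p]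
    rw [s1]
    refine sum_congr rfl fun h _ => ?_
    congr 1
    have s2 : ∑ p, (T I w₁ p * T I w₂ p) * cub_a I p h =
        ∑ h', w₂ h' * ∑ p, (T I w₁ p * cub_a I p h) * cub_a I p h' := by
      rw [← cub_ex]
      exact sum_congr rfl fun p _ => by rw [← cub_T I w₂ p]; ring
    rw [s2]
    refine sum_congr rfl fun h' _ => ?_
    congr 1
    rw [← cub_ex (cub_a I) (fun p => cub_a I p h * cub_a I p h') w₁]
    exact sum_congr rfl fun p _ => by rw [← cub_T I w₁ p]; ring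
  rw [e1]
  have e2 : ∑ h, w₃ h * ∑ h', w₂ h' * ∑ h'', w₁ h'' *
      (t1 q + q ^ 2 * ((if h = h' then 1 else 0) + (if h = h'' then 1 else 0) +
      (if h' = h'' then 1 else 0)) +
      (q ^ 3 - 2 * q ^ 2) * (if h = h' then (if h' = h'' then 1 else 0) else 0)) ≤
      ∑ h, w₃ h * ∑ h', w₂ h' * ∑ h'', w₁ h'' *
        ∑ p, cub_a I p h * cub_a I p h' * cub_a I p h'' := by
    refine sum_le_sum fun h _ => mul_le_mul_of_nonneg_left ?_ (h3 h)
    refine sum_le_sum fun h' _ => mul_le_mul_of_nonneg_left ?_ (h2 h')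
    refine sum_le_sum fun h'' _ => mul_le_mul_of_nonneg_left ?_ (h1 h'')
    exact cub_three hD h h' h''
  refine le_trans (le_of_eq ?_) e2
  have f1 : ∀ h h' : H, ∑ h'', w₁ h'' *
      (t1 q + q ^ 2 * ((if h = h' then 1 else 0) + (if h = h'' then 1 else 0) +
      (if h' = h'' then 1 else 0)) +
      (q ^ 3 - 2 * q ^ 2) * (if h = h' then (if h' = h'' then 1 else 0) else 0)) =
      t1 q * (∑ h, w₁ h) + q ^ 2 * ((if h = h' then (∑ h, w₁ h) else 0) + w₁ h + w₁ h') +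
        (q ^ 3 - 2 * q ^ 2) * (if h = h' then w₁ h' else 0) := by
    intro h h'
    have g1 : ∀ h'', w₁ h'' *
      (t1 q + q ^ 2 * ((if h = h' then 1 else 0) + (if h = h'' then 1 else 0) +
      (if h' = h'' then 1 else 0)) +
      (q ^ 3 - 2 * q ^ 2) * (if h = h' then (if h' = h'' then 1 else 0) else 0)) =
      (t1 q + q ^ 2 * (if h = h' then 1 else 0)) * w₁ h'' +
        q ^ 2 * (if h = h'' then w₁ h'' else 0) +
        (q ^ 2 + (q ^ 3 - 2 * q ^ 2) * (if h = h' then 1 else 0)) *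
          (if h' = h'' then w₁ h'' else 0) := by
      intro h''
      split_ifs <;> ring
    simp_rw [g1]
    rw [sum_add_distrib, sum_add_distrib, ← mul_sum, ← mul_sum, ← mul_sum, sum_ite_eq,
      sum_ite_eq, if_pos (mem_univ _), if_pos (mem_univ _)]
    split_ifs <;> ring
  have f2 : ∀ h : H, ∑ h', w₂ h' *
      (t1 q * (∑ h, w₁ h) + q ^ 2 * ((if h = h' then (∑ h, w₁ h) else 0) + w₁ h + w₁ h') +
        (q ^ 3 - 2 * q ^ 2) * (if h = h' then w₁ h' else 0)) =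
      t1 q * ((∑ h, w₁ h) * (∑ h, w₂ h)) + q ^ 2 * (w₂ h * (∑ h, w₁ h) + w₁ h * (∑ h, w₂ h) +
        ∑ h, w₁ h * w₂ h) + (q ^ 3 - 2 * q ^ 2) * (w₁ h * w₂ h) := by
    intro h
    have g1 : ∀ h', w₂ h' *
        (t1 q * (∑ h, w₁ h) + q ^ 2 * ((if h = h' then (∑ h, w₁ h) else 0) + w₁ h + w₁ h') +
        (q ^ 3 - 2 * q ^ 2) * (if h = h' then w₁ h' else 0)) =
        (t1 q * (∑ h, w₁ h) + q ^ 2 * w₁ h) * w₂ h' +
          (if h = h' then (q ^ 2 * w₂ h' * (∑ h, w₁ h) + (q ^ 3 - 2 * q ^ 2) * (w₁ h' * w₂ h'))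
            else 0) + q ^ 2 * (w₁ h' * w₂ h') := by
      intro h'
      split_ifs <;> ring
    simp_rw [g1]
    rw [sum_add_distrib, sum_add_distrib, ← mul_sum, ← mul_sum, sum_ite_eq,
      if_pos (mem_univ _)]
    ring
  simp_rw [f1, f2]
  have g2 : ∀ h, w₃ h * (t1 q * ((∑ h, w₁ h) * (∑ h, w₂ h)) + q ^ 2 * (w₂ h * (∑ h, w₁ h) +
      w₁ h * (∑ h, w₂ h) + ∑ h, w₁ h * w₂ h) + (q ^ 3 - 2 * q ^ 2) * (w₁ h * w₂ h)) =
      (t1 q * ((∑ h, w₁ h) * (∑ h, w₂ h)) + q ^ 2 * ∑ h, w₁ h * w₂ h) * w₃ h +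
        (q ^ 2 * ∑ h, w₁ h) * (w₂ h * w₃ h) + (q ^ 2 * ∑ h, w₂ h) * (w₁ h * w₃ h) +
        (q ^ 3 - 2 * q ^ 2) * (w₁ h * w₂ h * w₃ h) := by
    intro h
    ring
  simp_rw [g2]
  rw [sum_add_distrib, sum_add_distrib, sum_add_distrib, ← mul_sum, ← mul_sum, ← mul_sum,
    ← mul_sum]
  ring

private theorem cub_sum2 {I : P → H → Prop} {q : ℝ} (hD : DD I q) (w w' : H → ℝ) :
    ∑ p, T I w p * T I w' p =
      t2 q * ((∑ h, w h) * (∑ h, w' h)) + q ^ 3 * ∑ h, w h * w' h := by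
  have s1 : ∑ p, T I w p * T I w' p = ∑ h, w' h * ∑ p, T I w p * cub_a I p h := by
    rw [← cub_ex]
    exact sum_congr rfl fun p _ => by rw [cub_T I w' p]
  have s2 : ∀ h, ∑ p, T I w p * cub_a I p h = t2 q * (∑ h, w h) + q ^ 3 * w h := by
    intro h
    have s3 : ∑ p, T I w p * cub_a I p h = ∑ h', w h' * ∑ p, cub_a I p h * cub_a I p h' := by
      rw [← cub_ex]
      exact sum_congr rfl fun p _ => by rw [← cub_T I w p]; ring
    rw [s3]
    simp_rw [cub_two hD h]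
    have g1 : ∀ h', w h' * (t2 q + q ^ 3 * (if h = h' then 1 else 0)) =
        t2 q * w h' + q ^ 3 * (if h = h' then w h' else 0) := by
      intro h'
      split_ifs <;> ring
    simp_rw [g1]
    rw [sum_add_distrib, ← mul_sum, ← mul_sum, sum_ite_eq, if_pos (mem_univ _)]
  rw [s1]
  simp_rw [s2]
  have g2 : ∀ h, w' h * (t2 q * (∑ h, w h) + q ^ 3 * w h) =
      (t2 q * ∑ h, w h) * w' h + q ^ 3 * (w h * w' h) := by
    intro h
    ring
  simp_rw [g2]
  rw [sum_add_distrib, ← mul_sum, ← mul_sum]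
  ring

private theorem cub_sum1 {I : P → H → Prop} {q : ℝ} (hD : DD I q) (w : H → ℝ) :
    ∑ p, T I w p = t3 q * ∑ h, w h := by
  have s1 : ∑ p, T I w p = ∑ h, w h * ∑ p, 1 * cub_a I p h := by
    rw [← cub_ex]
    exact sum_congr rfl fun p _ => by rw [cub_T I w p, one_mul]
  rw [s1]
  simp_rw [one_mul, cub_one hD]
  rw [← sum_mul]
  ring

end

theorem tCub : S_Cub := by
  intro P H _ _ I q hq hD w₁ w₂ w₃ h1 h2 h3
  have hS3 := cub_sum3 hD w₁ w₂ w₃ h1 h2 h3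
  have s12 := cub_sum2 hD w₁ w₂
  have s13 := cub_sum2 hD w₁ w₃
  have s23 := cub_sum2 hD w₂ w₃
  have s1 := cub_sum1 hD w₁
  have s2 := cub_sum1 hD w₂
  have s3 := cub_sum1 hD w₃
  have hP12 : 0 ≤ ∑ h, w₁ h * w₂ h := sum_nonneg fun h _ => mul_nonneg (h1 h) (h2 h)
  have hP13 : 0 ≤ ∑ h, w₁ h * w₃ h := sum_nonneg fun h _ => mul_nonneg (h1 h) (h3 h)
  have hP23 : 0 ≤ ∑ h, w₂ h * w₃ h := sum_nonneg fun h _ => mul_nonneg (h2 h) (h3 h)
  have hE : 0 ≤ ∑ h, w₁ h * w₂ h * w₃ h :=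
    sum_nonneg fun h _ => mul_nonneg (mul_nonneg (h1 h) (h2 h)) (h3 h)
  have hW1 : 0 ≤ ∑ h, w₁ h := sum_nonneg fun h _ => h1 h
  have hW2 : 0 ≤ ∑ h, w₂ h := sum_nonneg fun h _ => h2 h
  have hW3 : 0 ≤ ∑ h, w₃ h := sum_nonneg fun h _ => h3 h
  set W1 := ∑ h, w₁ h with hW1'
  set W2 := ∑ h, w₂ h with hW2'
  set W3 := ∑ h, w₃ h with hW3'
  set P12 := ∑ h, w₁ h * w₂ h with hP12'
  set P13 := ∑ h, w₁ h * w₃ h with hP13'
  set P23 := ∑ h, w₂ h * w₃ h with hP23'
  set E := ∑ h, w₁ h * w₂ h * w₃ h with hE'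
  set S3 := ∑ p, T I w₁ p * T I w₂ p * T I w₃ p with hS3'
  have ht4 : 0 < t4 q := by unfold t4; positivity
  set m1 := t3 q * W1 / t4 q with hm1
  set m2 := t3 q * W2 / t4 q with hm2
  set m3 := t3 q * W3 / t4 q with hm3
  have hexp : ∑ p, (T I w₁ p - m1) * (T I w₂ p - m2) * (T I w₃ p - m3) =
      S3 - m3 * (t2 q * (W1 * W2) + q ^ 3 * P12) - m2 * (t2 q * (W1 * W3) + q ^ 3 * P13) -
        m1 * (t2 q * (W2 * W3) + q ^ 3 * P23) + m2 * m3 * (t3 q * W1) + m1 * m3 * (t3 q * W2) +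
        m1 * m2 * (t3 q * W3) - m1 * m2 * m3 * t4 q := by
    have g1 : ∀ p, (T I w₁ p - m1) * (T I w₂ p - m2) * (T I w₃ p - m3) =
        T I w₁ p * T I w₂ p * T I w₃ p - m3 * (T I w₁ p * T I w₂ p) -
          m2 * (T I w₁ p * T I w₃ p) - m1 * (T I w₂ p * T I w₃ p) + m2 * m3 * T I w₁ p +
          m1 * m3 * T I w₂ p + m1 * m2 * T I w₃ p - m1 * m2 * m3 := by
      intro p
      ring
    simp_rw [g1]
    rw [sum_sub_distrib, sum_add_distrib, sum_add_distrib, sum_add_distrib, sum_sub_distrib,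
      sum_sub_distrib, sum_sub_distrib, ← mul_sum, ← mul_sum, ← mul_sum, ← mul_sum, ← mul_sum,
      ← mul_sum, s12, s13, s23, s1, s2, s3, sum_const, card_univ, nsmul_eq_mul, hD.all]
    ring
  rw [hexp]
  have hkey : c0 q * (W1 * W2 * W3) + q ^ 2 / t4 q * (P12 * W3 + P13 * W2 + P23 * W1) +
      (q ^ 3 - 2 * q ^ 2) * E = (t1 q * (W1 * W2 * W3) +
      q ^ 2 * (P23 * W1 + P13 * W2 + P12 * W3) + (q ^ 3 - 2 * q ^ 2) * E) -
        m3 * (t2 q * (W1 * W2) + q ^ 3 * P12) - m2 * (t2 q * (W1 * W3) + q ^ 3 * P13) -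
        m1 * (t2 q * (W2 * W3) + q ^ 3 * P23) + m2 * m3 * (t3 q * W1) + m1 * m3 * (t3 q * W2) +
        m1 * m2 * (t3 q * W3) - m1 * m2 * m3 * t4 q := by
    have hq4 : t4 q = q * t3 q + 1 := by unfold t4 t3; ring
    rw [hm1, hm2, hm3]
    unfold c0
    field_simp
    rw [hq4]
    ring
  have hn1 : 0 ≤ q ^ 2 / t4 q * (P12 * W3 + P13 * W2 + P23 * W1) := by positivity
  have hn2 : 0 ≤ (q ^ 3 - 2 * q ^ 2) * E := by
    refine mul_nonneg ?_ hE
    nlinarith [sq_nonneg q]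
  linarith

end Pool.Agent.CapHalf
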