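import Pool.Agent.CapHalf.Spec

/-!
# The incidence structures `DD` and `CC` in PG(4, q)
-/

noncomputable section

namespace Pool.Agent.CapHalf

open Finset Pool.Agent.Caps
open scoped Classical

private theorem card_filter_nat {α : Type} [Fintype α] (Q : α → Prop) [DecidablePred Q] :
    ((univ : Finset α).filter Q).card = Nat.card {h // Q h} := by
  rw [Nat.card_eq_fintype_card, Fintype.card_subtype]

private theorem cnt0 (hCnt : S_Cnt) (F : Type) [Field F] [Fintype F] :
    (Fintype.card (Projectivization F (Fin 5 → F)) : ℝ) = t4 (Fintype.card F) := by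
  have h := (hCnt F 5 0 (fun i => i.elim0)).2 (linearIndependent_empty_type)
  have h1 : Nat.card {h : Projectivization F (Fin 5 → F) //
      ∀ i : Fin 0, (i.elim0 : Fin 5 → F) ⬝ᵥ h.rep = 0} =
        Fintype.card (Projectivization F (Fin 5 → F)) := by
    rw [← Nat.card_eq_fintype_card]
    exact Nat.card_congr (Equiv.subtypeUnivEquiv fun x i => i.elim0)
  rw [h1] at h
  rw [h]
  simp only [Nat.sub_zero, sum_range_succ, sum_range_zero, t4]
  push_cast
  ring

private theorem cnt1 (hCnt : S_Cnt) (F : Type) [Field F] [Fintype F] (a : Fin 5 → F) (ha : a ≠ 0)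
    (Q : Projectivization F (Fin 5 → F) → Prop) [DecidablePred Q]
    (hQ : ∀ h, Q h ↔ a ⬝ᵥ h.rep = 0) :
    (((univ : Finset (Projectivization F (Fin 5 → F))).filter Q).card : ℝ) =
      t3 (Fintype.card F) := by
  have h := (hCnt F 5 1 ![a]).2 (by
    rw [linearIndependent_unique_iff]
    simpa using ha)
  rw [card_filter_nat]
  have h1 : Nat.card {h // Q h} = Nat.card {h : Projectivization F (Fin 5 → F) //
      ∀ i : Fin 1, (![a] i) ⬝ᵥ h.rep = 0} := by
    refine Nat.card_congr (Equiv.subtypeEquivRight fun x => ?_)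
    rw [hQ]
    simp
  rw [h1, h]
  simp only [show 5 - 1 = 4 from rfl, sum_range_succ, sum_range_zero, t3]
  push_cast
  ring

private theorem cnt2 (hCnt : S_Cnt) (F : Type) [Field F] [Fintype F] (a b : Fin 5 → F)
    (hab : LinearIndependent F ![a, b])
    (Q : Projectivization F (Fin 5 → F) → Prop) [DecidablePred Q]
    (hQ : ∀ h, Q h ↔ a ⬝ᵥ h.rep = 0 ∧ b ⬝ᵥ h.rep = 0) :
    (((univ : Finset (Projectivization F (Fin 5 → F))).filter Q).card : ℝ) =
      t2 (Fintype.card F) := by
  have h := (hCnt F 5 2 ![a, b]).2 hab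
  rw [card_filter_nat]
  have h1 : Nat.card {h // Q h} = Nat.card {h : Projectivization F (Fin 5 → F) //
      ∀ i : Fin 2, (![a, b] i) ⬝ᵥ h.rep = 0} := by
    refine Nat.card_congr (Equiv.subtypeEquivRight fun x => ?_)
    rw [hQ, Fin.forall_fin_two]
    simp
  rw [h1, h]
  simp only [show 5 - 2 = 3 from rfl, sum_range_succ, sum_range_zero, t2]
  push_cast
  ring

private theorem cnt3aux (F : Type) [Field F] [Fintype F] (a b c : Fin 5 → F)
    (Q : Projectivization F (Fin 5 → F) → Prop) [DecidablePred Q]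
    (hQ : ∀ h, Q h ↔ a ⬝ᵥ h.rep = 0 ∧ b ⬝ᵥ h.rep = 0 ∧ c ⬝ᵥ h.rep = 0) :
    ((univ : Finset (Projectivization F (Fin 5 → F))).filter Q).card =
      Nat.card {h : Projectivization F (Fin 5 → F) //
        ∀ i : Fin 3, (![a, b, c] i) ⬝ᵥ h.rep = 0} := by
  rw [card_filter_nat]
  refine Nat.card_congr (Equiv.subtypeEquivRight fun x => ?_)
  rw [hQ, Fin.forall_fin_succ, Fin.forall_fin_two]
  simp

private theorem t1_cast (q : ℕ) : ((∑ i ∈ range (5 - 3), q ^ i : ℕ) : ℝ) = t1 q := by
  simp only [show 5 - 3 = 2 from rfl, sum_range_succ, sum_range_zero, t1]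
  push_cast
  ring

private theorem cnt3 (hCnt : S_Cnt) (F : Type) [Field F] [Fintype F] (a b c : Fin 5 → F)
    (Q : Projectivization F (Fin 5 → F) → Prop) [DecidablePred Q]
    (hQ : ∀ h, Q h ↔ a ⬝ᵥ h.rep = 0 ∧ b ⬝ᵥ h.rep = 0 ∧ c ⬝ᵥ h.rep = 0)
    (habc : LinearIndependent F ![a, b, c]) :
    (((univ : Finset (Projectivization F (Fin 5 → F))).filter Q).card : ℝ) =
      t1 (Fintype.card F) := by
  rw [cnt3aux F a b c Q hQ, (hCnt F 5 3 ![a, b, c]).2 habc, t1_cast]

private theorem cnt3le (hCnt : S_Cnt) (F : Type) [Field F] [Fintype F] (a b c : Fin 5 → F)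
    (Q : Projectivization F (Fin 5 → F) → Prop) [DecidablePred Q]
    (hQ : ∀ h, Q h ↔ a ⬝ᵥ h.rep = 0 ∧ b ⬝ᵥ h.rep = 0 ∧ c ⬝ᵥ h.rep = 0) :
    t1 (Fintype.card F) ≤
      (((univ : Finset (Projectivization F (Fin 5 → F))).filter Q).card : ℝ) := by
  rw [cnt3aux F a b c Q hQ, ← t1_cast]
  exact_mod_cast (hCnt F 5 3 ![a, b, c]).1

private theorem pair_indep {F : Type} [Field F] {p p' : Projectivization F (Fin 5 → F)}
    (h : p ≠ p') : LinearIndependent F ![p.rep, p'.rep] := by
  have h1 := (Projectivization.independent_pair_iff_ne p p').2 h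
  rw [Projectivization.independent_iff] at h1
  have h2 : (Projectivization.rep ∘ ![p, p'] : Fin 2 → (Fin 5 → F)) = ![p.rep, p'.rep] := by
    funext i
    fin_cases i <;> rfl
  rwa [h2] at h1

private theorem finrank_pair {F : Type} [Field F] {p p' : Projectivization F (Fin 5 → F)}
    (h : p ≠ p') :
    Module.finrank F (Submodule.span F (Set.range ![p.rep, p'.rep])) = 2 := by
  rw [finrank_span_eq_card (pair_indep h)]
  simp

private theorem sub_le {F : Type} [Field F] {p : Projectivization F (Fin 5 → F)}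
    {W : Submodule F (Fin 5 → F)} (h : p.rep ∈ W) : p.submodule ≤ W := by
  rw [Projectivization.submodule_eq, Submodule.span_singleton_le_iff_mem]
  exact h

private theorem cap_three {F : Type} [Field F] [Fintype F]
    {K : Finset (Projectivization F (Fin 5 → F))} (hK : IsCap F 4 K)
    (W : Submodule F (Fin 5 → F)) (hW : Module.finrank F W = 2)
    {a b c : Projectivization F (Fin 5 → F)} (ha : a ∈ K) (hb : b ∈ K) (hc : c ∈ K)
    (hab : a ≠ b) (hac : a ≠ c) (hbc : b ≠ c) (ha' : a.rep ∈ W) (hb' : b.rep ∈ W)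
    (hc' : c.rep ∈ W) : False := by
  have h := hK W hW
  have hs : ((({a, b, c} : Finset (Projectivization F (Fin 5 → F))) : Set _)) ⊆
      {P : Projectivization F (Fin 5 → F) | P ∈ K ∧ P.submodule ≤ W} := by
    intro P hP
    simp only [coe_insert, coe_singleton, Set.mem_insert_iff, Set.mem_singleton_iff] at hP
    rcases hP with rfl | rfl | rfl
    · exact ⟨ha, sub_le ha'⟩
    · exact ⟨hb, sub_le hb'⟩
    · exact ⟨hc, sub_le hc'⟩
  have h1 := Set.ncard_le_ncard hs (Set.toFinite _)
  rw [Set.ncard_coe_finset, Finset.card_eq_three.2 ⟨a, b, c, hab, hac, hbc, rfl⟩] at h1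
  exact absurd (h1.trans h) (by norm_num)

private theorem triple_indep {F : Type} [Field F] {a b c : Projectivization F (Fin 5 → F)}
    (hbc : b ≠ c) (ha : a.rep ∉ Submodule.span F (Set.range ![b.rep, c.rep])) :
    LinearIndependent F ![a.rep, b.rep, c.rep] :=
  linearIndependent_finCons.2 ⟨pair_indep hbc, ha⟩

/-- **PG(4, q) satisfies `DD` and, for a cap, `CC`.** -/
theorem tGeo (hCnt : S_Cnt) : S_Geo := by
  intro F _ _ K hK
  refine ⟨⟨?_, ?_, ?_, cnt0 hCnt F⟩, ⟨?_, ?_, ?_, ?_, cnt0 hCnt F⟩⟩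
  · intro h
    exact cnt1 hCnt F h.rep h.rep_nonzero _ fun p => by
      simp only [Inc, dotProduct_comm]
  · intro h h' hh
    refine cnt2 hCnt F h.rep h'.rep (pair_indep hh) _ fun p => ?_
    simp only [Inc]
    rw [dotProduct_comm p.rep h.rep, dotProduct_comm p.rep h'.rep]
  · intro h h' h''
    refine cnt3le hCnt F h.rep h'.rep h''.rep _ fun p => ?_
    simp only [Inc]
    rw [dotProduct_comm p.rep h.rep, dotProduct_comm p.rep h'.rep, dotProduct_comm p.rep h''.rep]
  · intro p
    exact cnt1 hCnt F p.rep p.rep_nonzero _ fun h => Iff.rfl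
  · intro p p' hp
    exact cnt2 hCnt F p.rep p'.rep (pair_indep hp) _ fun h => Iff.rfl
  · intro p hp p' hp' p'' hp'' h1 h2 h3
    refine cnt3 hCnt F p.rep p'.rep p''.rep _ (fun h => Iff.rfl) (triple_indep h3 fun hm => ?_)
    exact cap_three hK _ (finrank_pair h3) hp hp' hp'' h1 h2 h3 hm
      (Submodule.subset_span ⟨0, rfl⟩) (Submodule.subset_span ⟨1, rfl⟩)
  · intro x hx
    have hq0 : (0 : ℝ) ≤ (Fintype.card F : ℝ) ^ 2 := by positivity
    have key : ∀ p ∈ K, ∑ p' ∈ K.erase p,
        (((univ : Finset (Projectivization F (Fin 5 → F))).filter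
          fun h => Inc F 5 x h ∧ Inc F 5 p h ∧ Inc F 5 p' h).card : ℝ) ≤
        ((K.card : ℝ) - 1) * t1 (Fintype.card F) + (Fintype.card F : ℝ) ^ 2 := by
      intro p hp
      have hxp : x ≠ p := fun h => hx (h ▸ hp)
      have hterm : ∀ p' ∈ K.erase p,
          (((univ : Finset (Projectivization F (Fin 5 → F))).filter
            fun h => Inc F 5 x h ∧ Inc F 5 p h ∧ Inc F 5 p' h).card : ℝ) ≤
          t1 (Fintype.card F) +
            if p'.rep ∈ Submodule.span F (Set.range ![x.rep, p.rep]) then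
              (Fintype.card F : ℝ) ^ 2 else 0 := by
        intro p' hp'
        split_ifs with hm
        · have h2 := cnt2 hCnt F x.rep p.rep (pair_indep hxp)
            (fun h => Inc F 5 x h ∧ Inc F 5 p h) fun h => Iff.rfl
          have h3 : (((univ : Finset (Projectivization F (Fin 5 → F))).filter
              fun h => Inc F 5 x h ∧ Inc F 5 p h ∧ Inc F 5 p' h).card : ℝ) ≤
              (((univ : Finset (Projectivization F (Fin 5 → F))).filter
                fun h => Inc F 5 x h ∧ Inc F 5 p h).card : ℝ) := by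
            refine Nat.cast_le.2 (Finset.card_le_card ?_)
            intro h hh
            rw [mem_filter] at hh ⊢
            exact ⟨hh.1, hh.2.1, hh.2.2.1⟩
          rw [h2] at h3
          refine h3.trans (le_of_eq ?_)
          unfold t1 t2
          ring
        · rw [add_zero]
          refine le_of_eq (cnt3 hCnt F p'.rep x.rep p.rep _ (fun h => ?_) (triple_indep hxp hm))
          simp only [Inc]
          tauto
      refine (sum_le_sum hterm).trans ?_
      rw [sum_add_distrib, sum_const, card_erase_of_mem hp, ← sum_filter, sum_const, nsmul_eq_mul,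
        nsmul_eq_mul]
      have hk1 : 1 ≤ K.card := Finset.card_pos.2 ⟨p, hp⟩
      have hc1 : (((K.erase p).filter fun p' =>
          p'.rep ∈ Submodule.span F (Set.range ![x.rep, p.rep])).card : ℝ) ≤ 1 := by
        have : ((K.erase p).filter fun p' =>
            p'.rep ∈ Submodule.span F (Set.range ![x.rep, p.rep])).card ≤ 1 := by
          rw [Finset.card_le_one]
          intro a ha b hb
          rw [mem_filter, mem_erase] at ha hb
          by_contra hab
          exact cap_three hK _ (finrank_pair hxp) hp ha.1.2 hb.1.2 (Ne.symm ha.1.1)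
            (Ne.symm hb.1.1) hab (Submodule.subset_span ⟨1, rfl⟩) ha.2 hb.2
        exact_mod_cast this
      rw [Nat.cast_sub hk1, Nat.cast_one]
      nlinarith [mul_le_mul_of_nonneg_right hc1 hq0]
    refine (sum_le_sum key).trans (le_of_eq ?_)
    rw [sum_const, nsmul_eq_mul]
    ring

end Pool.Agent.CapHalf
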