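import Pool.Agent.CapHalf.Spec

/-!
# Moments on the hyperplane side
-/

set_option linter.unusedSectionVars false

noncomputable section

namespace Pool.Agent.CapHalf

open Finset Pool.Agent.Caps
open scoped Classical

variable {P H : Type} [Fintype P] [Fintype H]

private def ii (I : P → H → Prop) (p : P) (h : H) : ℝ := if I p h then 1 else 0

private def dl (p p' : P) : ℝ := if p = p' then 1 else 0

private theorem nn_eq (I : P → H → Prop) (K : Finset P) (h : H) :
    nn I K h = ∑ p ∈ K, ii I p h := by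
  unfold nn ii
  rw [Finset.card_filter]
  push_cast
  rfl

private theorem sum_dl {K : Finset P} {p : P} (hp : p ∈ K) : ∑ p' ∈ K, dl p p' = 1 := by
  unfold dl
  rw [Finset.sum_ite_eq, if_pos hp]

private theorem sum_dl' {K : Finset P} {p : P} (hp : p ∉ K) : ∑ p' ∈ K, dl p p' = 0 := by
  unfold dl
  rw [Finset.sum_ite_eq, if_neg hp]

private theorem cnt1 {I : P → H → Prop} {q : ℝ} {K : Finset P} (hC : CC I q K) (p : P) :
    ∑ h, ii I p h = t3 q := by
  rw [← hC.one p, Finset.card_filter]
  push_cast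
  rfl

private theorem mul2 (I : P → H → Prop) (p p' : P) (h : H) :
    ii I p h * ii I p' h = if I p h ∧ I p' h then 1 else 0 := by
  unfold ii
  by_cases h1 : I p h <;> by_cases h2 : I p' h <;> simp [h1, h2]

private theorem mul3 (I : P → H → Prop) (p p' p'' : P) (h : H) :
    ii I p h * ii I p' h * ii I p'' h = if I p h ∧ I p' h ∧ I p'' h then 1 else 0 := by
  unfold ii
  by_cases h1 : I p h <;> by_cases h2 : I p' h <;> by_cases h3 : I p'' h <;> simp [h1, h2, h3]

private theorem sq1 (I : P → H → Prop) (p : P) (h : H) : ii I p h * ii I p h = ii I p h := by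
  unfold ii
  by_cases h1 : I p h <;> simp [h1]

private theorem cnt2 {I : P → H → Prop} {q : ℝ} {K : Finset P} (hC : CC I q K) (p p' : P) :
    ∑ h, ii I p h * ii I p' h = t2 q + (t3 q - t2 q) * dl p p' := by
  by_cases hp : p = p'
  · subst hp
    rw [Finset.sum_congr rfl fun h _ => sq1 I p h, cnt1 hC p]
    unfold dl
    rw [if_pos rfl]
    ring
  · rw [Finset.sum_congr rfl fun h _ => mul2 I p p' h]
    unfold dl
    rw [if_neg hp, ← hC.two p p' hp, Finset.card_filter]
    push_cast
    ring

private theorem sum3 {I : P → H → Prop} (p p' p'' : P) :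
    ∑ h, ii I p h * ii I p' h * ii I p'' h =
      (((univ : Finset H).filter fun h => I p h ∧ I p' h ∧ I p'' h).card : ℝ) := by
  rw [Finset.sum_congr rfl fun h _ => mul3 I p p' p'' h, Finset.card_filter]
  push_cast
  rfl

private theorem cnt3 {I : P → H → Prop} {q : ℝ} {K : Finset P} (hC : CC I q K) {p p' p'' : P}
    (hp : p ∈ K) (hp' : p' ∈ K) (hp'' : p'' ∈ K) :
    ∑ h, ii I p h * ii I p' h * ii I p'' h =
      t1 q + (t2 q - t1 q) * (dl p p' + dl p p'' + dl p' p'') +
        (t3 q - 3 * t2 q + 2 * t1 q) * (dl p p' * dl p p'') := by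
  by_cases h1 : p = p'
  · subst h1
    rw [Finset.sum_congr rfl fun h _ => congrArg (fun z => z * ii I p'' h) (sq1 I p h),
      cnt2 hC p p'']
    unfold dl
    by_cases h2 : p = p''
    · subst h2
      simp only [if_true]
      ring
    · simp only [if_true, if_neg h2]
      ring
  · by_cases h2 : p = p''
    · subst h2
      have e : ∑ h, ii I p h * ii I p' h * ii I p h = ∑ h, ii I p h * ii I p' h := by
        refine Finset.sum_congr rfl fun h _ => ?_
        rw [mul_right_comm, sq1]
      rw [e, cnt2 hC p p']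
      unfold dl
      rw [if_neg h1, if_pos rfl, if_neg (Ne.symm h1)]
      ring
    · by_cases h3 : p' = p''
      · subst h3
        have e : ∑ h, ii I p h * ii I p' h * ii I p' h = ∑ h, ii I p h * ii I p' h := by
          refine Finset.sum_congr rfl fun h _ => ?_
          rw [mul_assoc, sq1]
        rw [e, cnt2 hC p p']
        unfold dl
        rw [if_neg h1, if_pos rfl]
        ring
      · rw [sum3, hC.three p hp p' hp' p'' hp'' h1 h2 h3]
        unfold dl
        rw [if_neg h1, if_neg h2, if_neg h3]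
        ring

/-- first moments through a point -/
private theorem mA (I : P → H → Prop) (K : Finset P) (x : P) :
    ∑ h, ii I x h * nn I K h = ∑ p ∈ K, ∑ h, ii I x h * ii I p h := by
  rw [Finset.sum_comm]
  refine Finset.sum_congr rfl fun h _ => ?_
  rw [nn_eq, Finset.mul_sum]

/-- second moments through a point -/
private theorem mB (I : P → H → Prop) (K : Finset P) (x : P) :
    ∑ h, ii I x h * nn I K h ^ 2 =
      ∑ p ∈ K, ∑ p' ∈ K, ∑ h, ii I x h * ii I p h * ii I p' h := by
  have e : ∀ p ∈ K, ∑ p' ∈ K, ∑ h, ii I x h * ii I p h * ii I p' h =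
      ∑ h, ii I x h * ii I p h * nn I K h := by
    intro p _
    rw [Finset.sum_comm]
    refine Finset.sum_congr rfl fun h _ => ?_
    rw [nn_eq, Finset.mul_sum]
  rw [Finset.sum_congr rfl e, Finset.sum_comm]
  refine Finset.sum_congr rfl fun h _ => ?_
  rw [← Finset.sum_mul, ← Finset.mul_sum, ← nn_eq]
  ring

private theorem mB_in {I : P → H → Prop} {q : ℝ} {K : Finset P} (hC : CC I q K) {x : P}
    (hx : x ∈ K) : ∑ h, ii I x h * nn I K h ^ 2 =
      (K.card : ℝ) ^ 2 * t1 q + 3 * K.card * (t2 q - t1 q) + (t3 q - 3 * t2 q + 2 * t1 q) := by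
  rw [mB]
  have e : ∀ p ∈ K, ∑ p' ∈ K, ∑ h, ii I x h * ii I p h * ii I p' h =
      K.card * t1 q + (t2 q - t1 q) * 2 +
        ((t2 q - t1 q) * K.card + (t3 q - 3 * t2 q + 2 * t1 q)) * dl x p := by
    intro p hp
    rw [Finset.sum_congr rfl fun p' hp' => cnt3 hC hx hp hp']
    rw [Finset.sum_add_distrib, Finset.sum_add_distrib, ← Finset.mul_sum, ← Finset.mul_sum,
      Finset.sum_add_distrib, Finset.sum_add_distrib, ← Finset.mul_sum, sum_dl hx, sum_dl hp,
      Finset.sum_const, Finset.sum_const, nsmul_eq_mul, nsmul_eq_mul]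
    ring
  rw [Finset.sum_congr rfl e, Finset.sum_add_distrib, ← Finset.mul_sum, sum_dl hx,
    Finset.sum_const, nsmul_eq_mul]
  ring

private theorem mA_eq {I : P → H → Prop} {q : ℝ} {K : Finset P} (hC : CC I q K) (x : P) :
    ∑ h, ii I x h * nn I K h =
      K.card * t2 q + (t3 q - t2 q) * ∑ p ∈ K, dl x p := by
  rw [mA, Finset.sum_congr rfl fun p _ => cnt2 hC x p, Finset.sum_add_distrib, ← Finset.mul_sum,
    Finset.sum_const, nsmul_eq_mul]

private theorem T_eq {I : P → H → Prop} {q : ℝ} {K : Finset P} (hC : CC I q K) (m : ℝ) (x : P) :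
    T I (fun h => (nn I K h - m) ^ 2) x =
      ∑ h, ii I x h * nn I K h ^ 2 - 2 * m * ∑ h, ii I x h * nn I K h + m ^ 2 * t3 q := by
  rw [← cnt1 hC x, Finset.mul_sum, Finset.mul_sum, ← Finset.sum_sub_distrib,
    ← Finset.sum_add_distrib]
  unfold T ii
  refine Finset.sum_congr rfl fun h _ => ?_
  by_cases h1 : I x h
  · simp only [if_pos h1]
    ring
  · simp only [if_neg h1]
    ring

theorem tMom : S_Mom := by
  intro P H _ _ I q K hC
  refine ⟨?_, ?_, ?_, ?_, ?_⟩
  · rw [Finset.sum_congr rfl fun h _ => nn_eq I K h, Finset.sum_comm,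
      Finset.sum_congr rfl fun p _ => cnt1 hC p, Finset.sum_const, nsmul_eq_mul]
  · have e : ∑ h, nn I K h ^ 2 = ∑ p ∈ K, ∑ h, ii I p h * nn I K h := by
      rw [Finset.sum_comm]
      refine Finset.sum_congr rfl fun h _ => ?_
      rw [← Finset.sum_mul, ← nn_eq]
      ring
    rw [e, Finset.sum_congr rfl fun p hp => (mA_eq hC p).trans (by rw [sum_dl hp]),
      Finset.sum_const, nsmul_eq_mul]
    ring
  · have e : ∑ h, nn I K h ^ 3 = ∑ p ∈ K, ∑ h, ii I p h * nn I K h ^ 2 := by
      rw [Finset.sum_comm]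
      refine Finset.sum_congr rfl fun h _ => ?_
      rw [← Finset.sum_mul, ← nn_eq]
      ring
    rw [e, Finset.sum_congr rfl fun p hp => mB_in hC hp, Finset.sum_const, nsmul_eq_mul]
    ring
  · intro x hx
    rw [T_eq hC, mB_in hC hx, mA_eq hC, sum_dl hx]
    unfold TK
    ring
  · intro x hx
    rw [T_eq hC, mA_eq hC, sum_dl' hx]
    have h1 : ∑ h, ii I x h * nn I K h ^ 2 ≤
        K.card * t2 q + ((K.card : ℝ) * (K.card - 1) * t1 q + K.card * q ^ 2) := by
      rw [mB]
      have e : ∀ p ∈ K, ∑ p' ∈ K, ∑ h, ii I x h * ii I p h * ii I p' h =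
          t2 q + ∑ p' ∈ K.erase p,
            (((univ : Finset H).filter fun h => I x h ∧ I p h ∧ I p' h).card : ℝ) := by
        intro p hp
        rw [← Finset.add_sum_erase K _ hp]
        congr 1
        · have hxp : x ≠ p := fun h => hx (h ▸ hp)
          have e2 : ∑ h, ii I x h * ii I p h * ii I p h = ∑ h, ii I x h * ii I p h := by
            refine Finset.sum_congr rfl fun h _ => ?_
            rw [mul_assoc, sq1]
          rw [e2, cnt2 hC x p]
          unfold dl
          rw [if_neg hxp]
          ring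
        · exact Finset.sum_congr rfl fun p' _ => sum3 x p p'
      rw [Finset.sum_congr rfl e, Finset.sum_add_distrib, Finset.sum_const, nsmul_eq_mul]
      have h2 := hC.off x hx
      linarith
    unfold TM
    linarith

end Pool.Agent.CapHalf
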