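import Pool.Agent.CapHalf.Spec

/-!
# CapHalf: the numerical inequality

`tNum : S_Num`. The coefficients of the polynomials were computed by a program.
-/

noncomputable section

namespace Pool.Agent.CapHalf

private def cf0 (q : ℝ) : ℝ :=
    80 * q ^ 27 + 1226 * q ^ 26 + 6024 * q ^ 25 + 8318 * q ^ 24 - 11014 * q ^ 23 - 42002 * q ^
    22 - 78466 * q ^ 21 - 81559 * q ^ 20 - 55228 * q ^ 19 - 18782 * q ^ 18 + 44318 * q ^ 17 +
    58456 * q ^ 16 + 66225 * q ^ 15 + 95206 * q ^ 14 + 72484 * q ^ 13 + 54572 * q ^ 12 + 23072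
    * q ^ 11 - 20508 * q ^ 10 + 5420 * q ^ 9 + 13328 * q ^ 8 - 22376 * q ^ 7 - 14368 * q ^ 6 +
    7408 * q ^ 5 + 1600 * q ^ 4 - 4000 * q ^ 3 - 576 * q ^ 2 + 896 * q + 256

private def cf1 (q : ℝ) : ℝ :=
    2 * q ^ 26 + 66 * q ^ 25 + 930 * q ^ 24 + 5422 * q ^ 23 + 11088 * q ^ 22 + 180 * q ^ 21 -
    18208 * q ^ 20 - 46452 * q ^ 19 - 55244 * q ^ 18 - 38925 * q ^ 17 - 25682 * q ^ 16 + 11982
    * q ^ 15 + 18890 * q ^ 14 + 18594 * q ^ 13 + 49083 * q ^ 12 + 44300 * q ^ 11 + 37236 * q ^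
    10 + 23244 * q ^ 9 - 3488 * q ^ 8 + 11220 * q ^ 7 + 14900 * q ^ 6 - 7808 * q ^ 5 - 6192 *
    q ^ 4 + 3536 * q ^ 3 + 1104 * q ^ 2 - 1280 * q - 448

private def cf2 (q : ℝ) : ℝ :=
    8 * q ^ 23 + 192 * q ^ 22 + 1576 * q ^ 21 + 4424 * q ^ 20 + 2112 * q ^ 19 - 1748 * q ^ 18
    - 9504 * q ^ 17 - 13724 * q ^ 16 - 8844 * q ^ 15 - 8478 * q ^ 14 - 868 * q ^ 13 - 832 * q
    ^ 12 - 4308 * q ^ 11 + 5432 * q ^ 10 + 6098 * q ^ 9 + 5752 * q ^ 8 + 4340 * q ^ 7 - 1724 *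
    q ^ 6 + 2704 * q ^ 5 + 4188 * q ^ 4 - 924 * q ^ 3 - 976 * q ^ 2 + 600 * q + 304

private def cf3 (q : ℝ) : ℝ :=
    12 * q ^ 20 + 188 * q ^ 19 + 780 * q ^ 18 + 560 * q ^ 17 + 224 * q ^ 16 - 680 * q ^ 15 -
    1476 * q ^ 14 - 560 * q ^ 13 - 840 * q ^ 12 - 226 * q ^ 11 - 496 * q ^ 10 - 1648 * q ^ 9 -
    284 * q ^ 8 - 100 * q ^ 7 + 6 * q ^ 6 + 84 * q ^ 5 - 644 * q ^ 4 + 84 * q ^ 3 + 400 * q ^
    2 - 84 * q - 100

private def cf4 (q : ℝ) : ℝ :=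
    8 * q ^ 17 + 64 * q ^ 16 + 56 * q ^ 15 + 46 * q ^ 14 + 8 * q ^ 13 - 58 * q ^ 12 + 38 * q ^
    11 + 14 * q ^ 10 + 30 * q ^ 9 + 5 * q ^ 8 - 128 * q ^ 7 - 34 * q ^ 6 - 26 * q ^ 5 - 16 * q
    ^ 4 - 3 * q ^ 3 - 62 * q ^ 2 - 8 * q + 16

private def cf5 (q : ℝ) : ℝ :=
    2 * q ^ 14 + 2 * q ^ 13 + 2 * q ^ 12 + 2 * q ^ 11 + 4 * q ^ 9 + 4 * q ^ 8 + 4 * q ^ 7 + 4
    * q ^ 6 - 1 * q ^ 5 + 2 * q ^ 4 + 2 * q ^ 3 + 2 * q ^ 2 + 2 * q - 1

private theorem cf0_pos {q : ℝ} (hq : 3 ≤ q) : 0 < cf0 q := by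
  obtain ⟨r, rfl⟩ : ∃ r, q = r + 3 := ⟨q - 3, by ring⟩
  have hr : 0 ≤ r := by linarith
  have e : cf0 (r + 3) =
    80 * r ^ 27 + 7706 * r ^ 26 + 354372 * r ^ 25 + 10364168 * r ^ 24 + 216641882 * r ^ 23 +
    3447966244 * r ^ 22 + 43459473428 * r ^ 21 + 445452455375 * r ^ 20 + 3782853742058 * r ^
    19 + 26977905046006 * r ^ 18 + 163175762448326 * r ^ 17 + 843070956263347 * r ^ 16 +
    3739341121979253 * r ^ 15 + 14283048526223611 * r ^ 14 + 47055820427509297 * r ^ 13 +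
    133716192122837285 * r ^ 12 + 327252958929526361 * r ^ 11 + 687638000448420657 * r ^ 10 +
    1234432913076817409 * r ^ 9 + 1879809666854113529 * r ^ 8 + 2404424630018491741 * r ^ 7 +
    2548456881749609453 * r ^ 6 + 2196719441139154447 * r ^ 5 + 1499511595826468416 * r ^ 4 +
    779143823520143489 * r ^ 3 + 289165021248673395 * r ^ 2 + 68172974302187489 * r +
    7657896677434840 := by
    unfold cf0
    ring
  rw [e]
  positivity

private theorem cf1_pos {q : ℝ} (hq : 3 ≤ q) : 0 < cf1 q := by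
  obtain ⟨r, rfl⟩ : ∃ r, q = r + 3 := ⟨q - 3, by ring⟩
  have hr : 0 ≤ r := by linarith
  have e : cf1 (r + 3) =
    2 * r ^ 26 + 222 * r ^ 25 + 11730 * r ^ 24 + 390982 * r ^ 23 + 9215826 * r ^ 22 +
    163496502 * r ^ 21 + 2270539718 * r ^ 20 + 25352882478 * r ^ 19 + 232013958856 * r ^ 18 +
    1764708681663 * r ^ 17 + 11271544485763 * r ^ 16 + 60911139352722 * r ^ 15 +
    279942942684572 * r ^ 14 + 1097755992663060 * r ^ 13 + 3678195299487837 * r ^ 12 +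
    10527788614889270 * r ^ 11 + 25687604933497212 * r ^ 10 + 53218266203884020 * r ^ 9 +
    93031531944610459 * r ^ 8 + 135985410068574828 * r ^ 7 + 164096024453500406 * r ^ 6 +
    160560397927477642 * r ^ 5 + 124135664213903901 * r ^ 4 + 72953393865244424 * r ^ 3 +
    30609189039828966 * r ^ 2 + 8163159261037963 * r + 1039261435200608 := by
    unfold cf1
    ring
  rw [e]
  positivity

private theorem cf2_pos {q : ℝ} (hq : 3 ≤ q) : 0 < cf2 q := by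
  obtain ⟨r, rfl⟩ : ∃ r, q = r + 3 := ⟨q - 3, by ring⟩
  have hr : 0 ≤ r := by linarith
  have e : cf2 (r + 3) =
    8 * r ^ 23 + 744 * r ^ 22 + 32464 * r ^ 21 + 885416 * r ^ 20 + 16967592 * r ^ 19 +
    243454372 * r ^ 18 + 2720700360 * r ^ 17 + 24314242600 * r ^ 16 + 176971394436 * r ^ 15 +
    1062629199270 * r ^ 14 + 5310494004452 * r ^ 13 + 22214292198878 * r ^ 12 + 78015736721424
    * r ^ 11 + 230157419200826 * r ^ 10 + 569297441761994 * r ^ 9 + 1175316790096000 * r ^ 8 +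
    2009815582753880 * r ^ 7 + 2813985735085810 * r ^ 6 + 3171734110066396 * r ^ 5 +
    2807115538612554 * r ^ 4 + 1878182098118760 * r ^ 3 + 892924705894334 * r ^ 2 +
    268738783679970 * r + 38479170403060 := by
    unfold cf2
    ring
  rw [e]
  positivity

private theorem cf3_pos {q : ℝ} (hq : 3 ≤ q) : 0 < cf3 q := by
  obtain ⟨r, rfl⟩ : ∃ r, q = r + 3 := ⟨q - 3, by ring⟩
  have hr : 0 ≤ r := by linarith
  have e : cf3 (r + 3) =
    12 * r ^ 20 + 908 * r ^ 19 + 32016 * r ^ 18 + 701372 * r ^ 17 + 10730828 * r ^ 16 +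
    122113864 * r ^ 15 + 1074108276 * r ^ 14 + 7487546992 * r ^ 13 + 42056560044 * r ^ 12 +
    192386770478 * r ^ 11 + 721192177298 * r ^ 10 + 2220687768362 * r ^ 9 + 5609778362770 * r
    ^ 8 + 11567560128512 * r ^ 7 + 19287100166826 * r ^ 6 + 25610254228992 * r ^ 5 +
    26453603009794 * r ^ 4 + 20489506338210 * r ^ 3 + 11196737011444 * r ^ 2 + 3849434749794 *
    r + 626235491492 := by
    unfold cf3
    ring
  rw [e]
  positivity

private theorem cf4_pos {q : ℝ} (hq : 3 ≤ q) : 0 < cf4 q := by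
  obtain ⟨r, rfl⟩ : ∃ r, q = r + 3 := ⟨q - 3, by ring⟩
  have hr : 0 ≤ r := by linarith
  have e : cf4 (r + 3) =
    8 * r ^ 17 + 472 * r ^ 16 + 12920 * r ^ 15 + 218566 * r ^ 14 + 2564780 * r ^ 13 + 22190240
    * r ^ 12 + 146755262 * r ^ 11 + 758506598 * r ^ 10 + 3104057736 * r ^ 9 + 10121276435 * r
    ^ 8 + 26307688996 * r ^ 7 + 54220891316 * r ^ 6 + 87554087038 * r ^ 5 + 108472854158 * r ^
    4 + 99597435735 * r ^ 3 + 63875576611 * r ^ 2 + 25552629925 * r + 4801466404 := by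
    unfold cf4
    ring
  rw [e]
  positivity

private theorem cf5_pos {q : ℝ} (hq : 3 ≤ q) : 0 < cf5 q := by
  obtain ⟨r, rfl⟩ : ∃ r, q = r + 3 := ⟨q - 3, by ring⟩
  have hr : 0 ≤ r := by linarith
  have e : cf5 (r + 3) =
    2 * r ^ 14 + 86 * r ^ 13 + 1718 * r ^ 12 + 21134 * r ^ 11 + 178860 * r ^ 10 + 1101676 * r
    ^ 9 + 5093068 * r ^ 8 + 17953264 * r ^ 7 + 48493042 * r ^ 6 + 99884249 * r ^ 5 + 154451057
    * r ^ 4 + 173877506 * r ^ 3 + 134738498 * r ^ 2 + 64341419 * r + 14288396 := by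
    unfold cf5
    ring
  rw [e]
  positivity

/-- `BB * t4^2 / (k q^2)` -/
private def be (q k : ℝ) : ℝ :=
  (q ^ 5 + 1) * k ^ 2 - 3 * k * t4 q - (q - 2) * t4 q ^ 2

/-- `(TM - TK) * t4 / q^2` -/
private def de (q k : ℝ) : ℝ := k * (t4 q - 2) - (q - 2) * t4 q

private def Phi (q k : ℝ) : ℝ :=
  de q k * be q k ^ 2 -
    k ^ 2 * (t4 q - 1) * (t4 q ^ 2 + t4 q - k * (q ^ 5 + 1)) * be q k -
    k ^ 2 * q ^ 5 * (q ^ 5 + 1) * (t4 q - k) ^ 3

private theorem Phi_eq (q s : ℝ) : 32 * Phi q ((q ^ 3 + 6 * q ^ 2 + s) / 2) =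
    cf0 q + cf1 q * s + cf2 q * s ^ 2 + cf3 q * s ^ 3 + cf4 q * s ^ 4 + cf5 q * s ^ 5 := by
  unfold Phi de be t4 cf0 cf1 cf2 cf3 cf4 cf5
  ring

private theorem be_nonneg {q s : ℝ} (hq : 3 ≤ q) (hs : 0 < s) :
    0 ≤ be q ((q ^ 3 + 6 * q ^ 2 + s) / 2) := by
  obtain ⟨r, rfl⟩ : ∃ r, q = r + 3 := ⟨q - 3, by ring⟩
  have hr : 0 ≤ r := by linarith
  have e : 4 * be (r + 3) (((r + 3) ^ 3 + 6 * (r + 3) ^ 2 + s) / 2) =
      (r ^ 11 + 45 * r ^ 10 + 887 * r ^ 9 + 10179 * r ^ 8 + 75976 * r ^ 7 + 388887 * r ^ 6 +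
      1397232 * r ^ 5 + 3531969 * r ^ 4 + 6166481 * r ^ 3 + 7090522 * r ^ 2 + 4836699 * r +
      1483514) + (2 * r ^ 8 + 60 * r ^ 7 + 756 * r ^ 6 + 5292 * r ^ 5 + 22674 * r ^ 4 +
      61160 * r ^ 3 + 101706 * r ^ 2 + 95502 * r + 38802) * s +
      (r ^ 5 + 15 * r ^ 4 + 90 * r ^ 3 + 270 * r ^ 2 + 405 * r + 244) * s ^ 2 := by
    unfold be t4
    ring
  have h : 0 ≤ 4 * be (r + 3) (((r + 3) ^ 3 + 6 * (r + 3) ^ 2 + s) / 2) := by
    rw [e]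
    positivity
  linarith

theorem tNum : S_Num := by
  intro q k hq hk
  obtain ⟨s, rfl⟩ : ∃ s, k = (q ^ 3 + 6 * q ^ 2 + s) / 2 := ⟨2 * k - q ^ 3 - 6 * q ^ 2, by ring⟩
  have hs : 0 < s := by linarith
  have hbe := be_nonneg hq hs
  have hPhi : 0 < Phi q ((q ^ 3 + 6 * q ^ 2 + s) / 2) := by
    have h0 := cf0_pos hq
    have h1 := cf1_pos hq
    have h2 := cf2_pos hq
    have h3 := cf3_pos hq
    have h4 := cf4_pos hq
    have h5 := cf5_pos hq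
    have h : 0 < 32 * Phi q ((q ^ 3 + 6 * q ^ 2 + s) / 2) := by
      rw [Phi_eq]
      positivity
    linarith
  have hk0 : 0 < (q ^ 3 + 6 * q ^ 2 + s) / 2 := by positivity
  generalize (q ^ 3 + 6 * q ^ 2 + s) / 2 = k at *
  have h4 : 0 < t4 q := by
    unfold t4
    positivity
  have h4' := h4.ne'
  have eB : BB q k = k * q ^ 2 * be q k / t4 q ^ 2 := by
    unfold BB be mu
    field_simp
    unfold t1 t2 t3 t4
    ring
  have eD : TM q k - TK q k = q ^ 2 * de q k / t4 q := by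
    unfold TM TK de mu
    field_simp
    unfold t1 t2 t3 t4
    ring
  have eG : GG q k = q ^ 2 * k * (t4 q ^ 2 + t4 q - k * (q ^ 5 + 1)) / t4 q ^ 2 := by
    unfold GG TM WW mu
    field_simp
    unfold t1 t2 t3 t4
    ring
  have eW : WW q k = q ^ 3 * k * (t4 q - k) / t4 q := by
    unfold WW
    field_simp
  have eM : q * mu q k = k * (t4 q - 1) / t4 q := by
    unfold mu
    field_simp
    unfold t3 t4
    ring
  have eC : -c0 q = q ^ 2 * (q ^ 5 + 1) / t4 q ^ 2 := by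
    unfold c0
    field_simp
    unfold t1 t2 t3 t4
    ring
  refine ⟨?_, ?_⟩
  · rw [eB]
    positivity
  · have key : (TM q k - TK q k) * BB q k ^ 2 -
        (k * q ^ 3 * mu q k * GG q k * BB q k + k * (-c0 q) * WW q k ^ 3) =
        k ^ 2 * q ^ 6 * Phi q k / t4 q ^ 5 := by
      have e1 : k * q ^ 3 * mu q k * GG q k * BB q k =
          k * q ^ 2 * (q * mu q k) * GG q k * BB q k := by ring
      rw [e1, eM, eD, eG, eB, eW, eC]
      unfold Phi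
      field_simp
      ring
    have h5 : 0 < k ^ 2 * q ^ 6 * Phi q k / t4 q ^ 5 := by positivity
    linarith

end Pool.Agent.CapHalf
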