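import Pool.Agent.CapHalf.Spec

/-!
# CapHalf, Rec: recursion for the dimension
-/

noncomputable section

namespace Pool.Agent.CapHalf

open Finset Pool.Agent.Caps
open scoped Classical

private theorem rec_submodule {F : Type} [Field F] {n m : ℕ} (ψ : (Fin n → F) →ₗ[F] (Fin m → F))
    (hψ : Function.Injective ψ) (P : Projectivization F (Fin n → F)) :
    (Projectivization.map ψ hψ P).submodule = P.submodule.map ψ := by
  induction P using Projectivization.ind with
  | h v hv =>
    rw [Projectivization.map_mk, Projectivization.submodule_mk, Projectivization.submodule_mk,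
      Submodule.map_span, Set.image_singleton]

/-- The pull back of a cap along a linear embedding is a cap. -/
private theorem rec_cap {F : Type} [Field F] [Fintype F] {d : ℕ}
    (ψ : (Fin (d + 1) → F) →ₗ[F] (Fin (d + 1 + 1) → F)) (hψ : Function.Injective ψ)
    (K : Finset (Projectivization F (Fin (d + 1 + 1) → F))) (hK : IsCap F (d + 1) K) :
    IsCap F d (univ.filter fun x => Projectivization.map ψ hψ x ∈ K) := by
  intro W hW
  have h1 : Module.finrank F (W.map ψ) = 2 := by
    rw [← (Submodule.equivMapOfInjective ψ hψ W).finrank_eq, hW]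
  refine le_trans ?_ (hK (W.map ψ) h1)
  refine Set.ncard_le_ncard_of_injOn (Projectivization.map ψ hψ) ?_
    (Projectivization.map_injective ψ hψ).injOn (K.finite_toSet.subset fun P hP => hP.1)
  rintro P ⟨hP1, hP2⟩
  rw [mem_filter] at hP1
  refine ⟨hP1.2, ?_⟩
  rw [rec_submodule]
  exact Submodule.map_mono hP2

/-- A hyperplane section. -/
private theorem rec_section {F : Type} [Field F] [Fintype F] {d A : ℕ}
    (hA : ∀ K : Finset (Projectivization F (Fin (d + 1) → F)), IsCap F d K → 2 * K.card ≤ A)
    (K : Finset (Projectivization F (Fin (d + 1 + 1) → F))) (hK : IsCap F (d + 1) K)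
    (h : Projectivization F (Fin (d + 1 + 1) → F)) :
    2 * (K.filter fun p => Inc F (d + 1 + 1) p h).card ≤ A := by
  let φ : (Fin (d + 1 + 1) → F) →ₗ[F] F := dotProductBilin F F h.rep
  have hφ : ∀ y, φ y = h.rep ⬝ᵥ y := fun y => rfl
  have hφ0 : φ ≠ 0 := by
    intro h0
    apply h.rep_nonzero
    funext i
    have h1 := hφ (Pi.single i 1)
    rw [h0, dotProduct_single, mul_one] at h1
    exact h1.symm
  have hsurj : Function.Surjective φ := LinearMap.surjective hφ0
  have hrk := φ.finrank_range_add_finrank_ker
  rw [Module.finrank_fin_fun, LinearMap.range_eq_top.2 hsurj, finrank_top, Module.finrank_self] at hrk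
  have hker : Module.finrank F (LinearMap.ker φ) = d + 1 := by omega
  let e : (Fin (d + 1) → F) ≃ₗ[F] LinearMap.ker φ :=
    LinearEquiv.ofFinrankEq _ _ (by rw [Module.finrank_fin_fun, hker])
  let ψ : (Fin (d + 1) → F) →ₗ[F] (Fin (d + 1 + 1) → F) := (LinearMap.ker φ).subtype ∘ₗ e.toLinearMap
  have hψ : Function.Injective ψ := (LinearMap.ker φ).injective_subtype.comp e.injective
  refine le_trans (Nat.mul_le_mul_left 2 ?_) (hA _ (rec_cap ψ hψ K hK))
  refine card_le_card_of_surjOn (Projectivization.map ψ hψ) ?_
  intro p hp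
  rw [mem_coe, mem_filter] at hp
  have hp2 : p.rep ∈ LinearMap.ker φ := by
    rw [LinearMap.mem_ker, hφ, dotProduct_comm]
    exact hp.2
  obtain ⟨v, hv⟩ := e.surjective ⟨p.rep, hp2⟩
  have hv1 : ψ v = p.rep := congrArg Subtype.val hv
  have hv0 : v ≠ 0 := by
    rintro rfl
    rw [map_zero] at hv1
    exact p.rep_nonzero hv1.symm
  have hmap : Projectivization.map ψ hψ (Projectivization.mk F v hv0) = p := by
    rw [Projectivization.map_mk]
    conv_rhs => rw [← p.mk_rep]
    congr 1
  refine ⟨Projectivization.mk F v hv0, ?_, hmap⟩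
  rw [mem_coe, mem_filter]
  refine ⟨mem_univ _, ?_⟩
  rw [hmap]
  exact hp.1

theorem tRec (hCnt : S_Cnt) : S_Rec := by
  intro F _ _ d A hlt hA K hK
  -- the hyperplanes through one point
  have h1 : ∀ p : Projectivization F (Fin (d + 1 + 1) → F),
      ((univ : Finset (Projectivization F (Fin (d + 1 + 1) → F))).filter
        fun h => Inc F (d + 1 + 1) p h).card = ∑ i ∈ range (d + 1), Fintype.card F ^ i := by
    intro p
    have h2 := (hCnt F (d + 1 + 1) 1 fun _ => p.rep).2
      (LinearIndependent.of_subsingleton 0 p.rep_nonzero)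
    rw [← Fintype.card_subtype, ← Nat.card_eq_fintype_card]
    refine Eq.trans ?_ h2
    refine Nat.card_congr (Equiv.subtypeEquivRight fun h => ?_)
    exact ⟨fun hh _ => hh, fun hh => hh 0⟩
  have h2 : Fintype.card (Projectivization F (Fin (d + 1 + 1) → F)) =
      Fintype.card F * (∑ i ∈ range (d + 1), Fintype.card F ^ i) + 1 := by
    rw [← Nat.card_eq_fintype_card,
      Projectivization.card_of_finrank F (Fin (d + 1 + 1) → F) (Module.finrank_fin_fun F),
      sum_range_succ', pow_zero, mul_sum, Nat.card_eq_fintype_card]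
    congr 1
    exact sum_congr rfl fun i _ => pow_succ' _ _
  have h3 : ∑ p ∈ K, ((univ : Finset (Projectivization F (Fin (d + 1 + 1) → F))).filter
      fun h => Inc F (d + 1 + 1) p h).card =
      ∑ h : Projectivization F (Fin (d + 1 + 1) → F),
        (K.filter fun p => Inc F (d + 1 + 1) p h).card := by
    simp only [card_filter]
    exact sum_comm
  rw [sum_congr rfl fun p _ => h1 p, sum_const, smul_eq_mul] at h3
  have h4 : 2 * ∑ h : Projectivization F (Fin (d + 1 + 1) → F),
      (K.filter fun p => Inc F (d + 1 + 1) p h).card ≤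
      (Fintype.card F * (∑ i ∈ range (d + 1), Fintype.card F ^ i) + 1) * A := by
    rw [mul_sum, ← h2, ← card_univ, ← smul_eq_mul (a := (univ : Finset _).card)]
    exact sum_le_card_nsmul _ _ _ fun h _ => rec_section hA K hK h
  rw [← h3] at h4
  set θ := ∑ i ∈ range (d + 1), Fintype.card F ^ i
  have h5 : 2 * K.card * θ < (Fintype.card F * A + 1) * θ := by
    calc 2 * K.card * θ = 2 * (K.card * θ) := by ring
      _ ≤ (Fintype.card F * θ + 1) * A := h4
      _ = Fintype.card F * A * θ + A := by ring
      _ < Fintype.card F * A * θ + θ := by omega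
      _ = (Fintype.card F * A + 1) * θ := by ring
  have h6 := lt_of_mul_lt_mul_right h5 (Nat.zero_le _)
  omega

end Pool.Agent.CapHalf
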