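import Pool.Agent.CapHalf.Par
import Pool.Agent.CapHalf.Cub
import Pool.Agent.CapHalf.Mom
import Pool.Agent.CapHalf.Ana
import Pool.Agent.CapHalf.Num
import Pool.Agent.CapHalf.Cnt
import Pool.Agent.CapHalf.Geo
import Pool.Agent.CapHalf.Rec

/-!
# CapHalf, all parts together
-/

namespace Pool.Agent.CapHalf

open Pool.Agent.Caps

/-- Every cap in `PG(e+4, q)`, `q ≥ 3`, has at most `q^(e+3)/2 + 3 q^(e+2)` points. -/
theorem capBound (F : Type) [Field F] [Fintype F] (hq : 3 ≤ Fintype.card F) (e : ℕ)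
    (K : Finset (Projectivization F (Fin (e + 4 + 1) → F))) (hK : IsCap F (e + 4) K) :
    2 * K.card ≤ Fintype.card F ^ (e + 3) + 6 * Fintype.card F ^ (e + 2) :=
  main (tAna tPar tCub tMom) tNum (tGeo tCnt) (tRec tCnt) F hq e K hK

end Pool.Agent.CapHalf
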