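import Pool.Agent.CapHalf.AffA
import Pool.Agent.CapHalf.AffB
import Pool.Agent.CapHalf.All

/-!
# CapHalf, AffC: caps in all dimensions
-/

noncomputable section

namespace Pool.Agent.CapHalf

open Finset Pool.Agent.Caps
open scoped Classical

variable {F : Type} [Field F] [Fintype F]

/-- The numerical inequality. -/
theorem aff_num (q : ℝ) (hq : 3 ≤ q) (e : ℕ) :
    (2 * q + (e + 4)) ^ 2 ≤ 16 * (q / 2) ^ (e + 5) := by
  induction e with
  | zero =>
    obtain ⟨r, rfl⟩ : ∃ r, q = 3 + r := ⟨q - 3, by ring⟩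
    have hr : 0 ≤ r := by linarith
    have h1 : 16 * ((3 + r) / 2) ^ (0 + 5) - (2 * (3 + r) + ((0 : ℕ) + 4)) ^ 2 =
        (43 + 325 * r + 262 * r ^ 2 + 90 * r ^ 3 + 15 * r ^ 4 + r ^ 5) / 2 := by
      push_cast
      ring
    have h2 : 0 ≤ (43 + 325 * r + 262 * r ^ 2 + 90 * r ^ 3 + 15 * r ^ 4 + r ^ 5) / 2 := by
      positivity
    linarith
  | succ e ih =>
    have h1 : (16 : ℝ) * (q / 2) ^ (e + 1 + 5) = (16 * (q / 2) ^ (e + 5)) * (q / 2) := by
      rw [show e + 1 + 5 = (e + 5) + 1 from rfl, pow_succ]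
      ring
    rw [h1]
    have h2 : (0 : ℝ) ≤ (e : ℝ) := Nat.cast_nonneg _
    set s := 2 * q + ((e : ℝ) + 4)
    have hs : 10 ≤ s := by
      change 10 ≤ 2 * q + ((e : ℝ) + 4)
      linarith
    have h3 : 2 * q + (((e + 1 : ℕ) : ℝ) + 4) = s + 1 := by
      change _ = 2 * q + ((e : ℝ) + 4) + 1
      push_cast
      ring
    rw [h3]
    have h4 : (s + 1) ^ 2 ≤ s ^ 2 * (q / 2) := by nlinarith [mul_nonneg (sq_nonneg s) (sub_nonneg.2 hq)]
    refine h4.trans (mul_le_mul_of_nonneg_right ih (by linarith))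

/-- The weights. -/
def wg (q : ℝ) (e : ℕ) : ℝ := 2 * q + e - 13 + (1 / 2) ^ e

/-- **Affine caps.** -/
theorem affBound (hq : 3 ≤ Fintype.card F) (e : ℕ) :
    ∀ A : Finset (Fin (e + 4) → F), IsAffineCap F A →
      wg (Fintype.card F) e * A.card ≤ (Fintype.card F : ℝ) ^ (e + 4) := by
  have hq' : (3 : ℝ) ≤ (Fintype.card F : ℝ) := by exact_mod_cast hq
  induction e with
  | zero =>
    intro A hA
    have h1 := capBound F hq 0 (A.image emb) (emb_cap A hA)
    rw [card_image_of_injective _ emb_inj] at h1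
    have h2 : (2 : ℝ) * A.card ≤ (Fintype.card F : ℝ) ^ 3 + 6 * (Fintype.card F : ℝ) ^ 2 := by
      exact_mod_cast h1
    set q : ℝ := (Fintype.card F : ℝ)
    have h3 : wg q 0 = 2 * (q - 6) := by
      rw [wg]
      push_cast
      ring
    rw [h3]
    have hk : (0 : ℝ) ≤ A.card := Nat.cast_nonneg _
    rcases le_or_gt q 6 with h6 | h6
    · have h7 : 2 * (q - 6) * (A.card : ℝ) ≤ 0 := by nlinarith
      exact h7.trans (by positivity)
    · have h7 : 2 * (q - 6) * (A.card : ℝ) ≤ (q - 6) * (q ^ 3 + 6 * q ^ 2) := by nlinarith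
      refine h7.trans ?_
      have h8 : (q - 6) * (q ^ 3 + 6 * q ^ 2) = q ^ (0 + 4) - 36 * q ^ 2 := by ring
      rw [h8]
      nlinarith [sq_nonneg q]
  | succ e ih =>
    intro A hA
    set q : ℝ := (Fintype.card F : ℝ)
    have hk : (0 : ℝ) ≤ A.card := Nat.cast_nonneg _
    have hQ : 0 < q ^ (e + 4) := by positivity
    have hww : wg q (e + 1) = wg q e + 1 - (1 / 2) ^ (e + 1) := by
      rw [wg, wg, pow_succ]
      push_cast
      ring
    have hh : (0 : ℝ) < (1 / 2) ^ (e + 1) := by positivity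
    rcases le_or_gt (wg q (e + 1)) 1 with h1 | h1
    · have h2 : (A.card : ℝ) ≤ q ^ (e + 1 + 4) := by
        have h3 := card_le_univ A
        rw [Fintype.card_fun, Fintype.card_fin] at h3
        change (A.card : ℝ) ≤ (Fintype.card F : ℝ) ^ (e + 1 + 4)
        exact_mod_cast h3
      have h3 : wg q (e + 1) * (A.card : ℝ) ≤ A.card := by nlinarith
      exact h3.trans h2
    have hw : 0 < wg q e := by
      rw [hww] at h1
      linarith
    have ha : ∀ B : Finset (Fin (e + 4) → F), IsAffineCap F B →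
        (B.card : ℝ) ≤ q ^ (e + 4) / wg q e := by
      intro B hB
      rw [le_div_iff₀ hw, mul_comm]
      exact ih B hB
    have hrec := aff_rec hq ha A hA
    -- the numbers
    have hnum := aff_num q hq' e
    have hw1 : wg q e ≤ 2 * q + (e + 4) := by
      rw [wg]
      have : ((1 : ℝ) / 2) ^ e ≤ 1 := pow_le_one₀ (by norm_num) (by norm_num)
      linarith
    have hw2 : wg q (e + 1) ≤ 2 * q + (e + 4) := by
      rw [wg]
      have : ((1 : ℝ) / 2) ^ (e + 1) ≤ 1 := pow_le_one₀ (by norm_num) (by norm_num)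
      push_cast
      linarith
    have hw3 : wg q (e + 1) * wg q e ≤ (1 / 2) ^ (e + 1) * q ^ (e + 5) := by
      have h2 : wg q (e + 1) * wg q e ≤ (2 * q + (e + 4)) * (2 * q + (e + 4)) :=
        mul_le_mul hw2 hw1 hw.le (by positivity)
      have h3 : (16 : ℝ) * (q / 2) ^ (e + 5) = (1 / 2) ^ (e + 1) * q ^ (e + 5) := by
        rw [div_pow, show e + 5 = (e + 1) + 4 from rfl, pow_add (2 : ℝ), one_div, inv_pow]
        field_simp
        norm_num
      nlinarith
    -- final step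
    have hden : 0 < q ^ (e + 4) + q ^ (e + 4) / wg q e := by positivity
    have h5 : wg q (e + 1) * (q * (q ^ (e + 4) / wg q e) + 1) ≤
        q * (q ^ (e + 4) + q ^ (e + 4) / wg q e) := by
      have h6 : q * (q ^ (e + 4) + q ^ (e + 4) / wg q e) -
          wg q (e + 1) * (q * (q ^ (e + 4) / wg q e) + 1) =
          ((1 / 2) ^ (e + 1) * q ^ (e + 5) - wg q (e + 1) * wg q e) / wg q e := by
        rw [hww]
        field_simp
        ring
      have h7 : 0 ≤ ((1 / 2) ^ (e + 1) * q ^ (e + 5) - wg q (e + 1) * wg q e) / wg q e :=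
        div_nonneg (sub_nonneg.2 hw3) hw.le
      linarith
    have h8 : wg q (e + 1) * (A.card : ℝ) * (q ^ (e + 4) + q ^ (e + 4) / wg q e) ≤
        q ^ (e + 1 + 4) * (q ^ (e + 4) + q ^ (e + 4) / wg q e) := by
      calc wg q (e + 1) * (A.card : ℝ) * (q ^ (e + 4) + q ^ (e + 4) / wg q e)
          = wg q (e + 1) * ((A.card : ℝ) * (q ^ (e + 4) + q ^ (e + 4) / wg q e)) := by ring
        _ ≤ wg q (e + 1) * (q ^ (e + 4) * (q * (q ^ (e + 4) / wg q e) + 1)) :=
            mul_le_mul_of_nonneg_left hrec (by linarith)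
        _ = q ^ (e + 4) * (wg q (e + 1) * (q * (q ^ (e + 4) / wg q e) + 1)) := by ring
        _ ≤ q ^ (e + 4) * (q * (q ^ (e + 4) + q ^ (e + 4) / wg q e)) :=
            mul_le_mul_of_nonneg_left h5 hQ.le
        _ = q ^ (e + 1 + 4) * (q ^ (e + 4) + q ^ (e + 4) / wg q e) := by
            rw [show e + 1 + 4 = (e + 4) + 1 from rfl, pow_succ]
            ring
    exact le_of_mul_le_mul_right h8 hden

/-- Affine caps, in the integers. -/
theorem affBoundZ (hq : 3 ≤ Fintype.card F) {d : ℕ} (hd : 4 ≤ d) (A : Finset (Fin d → F))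
    (hA : IsAffineCap F A) :
    (2 * (Fintype.card F : ℤ) + d - 17) * A.card ≤ (Fintype.card F : ℤ) ^ d := by
  obtain ⟨e, rfl⟩ : ∃ e, d = e + 4 := ⟨d - 4, by omega⟩
  have h1 := affBound hq e A hA
  have hk : (0 : ℝ) ≤ A.card := Nat.cast_nonneg _
  have h2 : (2 * (Fintype.card F : ℝ) + ((e + 4 : ℕ) : ℝ) - 17) ≤ wg (Fintype.card F) e := by
    rw [wg]
    have : (0 : ℝ) ≤ (1 / 2) ^ e := by positivity
    push_cast
    linarith
  have h3 : (2 * (Fintype.card F : ℝ) + ((e + 4 : ℕ) : ℝ) - 17) * A.card ≤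
      (Fintype.card F : ℝ) ^ (e + 4) := le_trans (mul_le_mul_of_nonneg_right h2 hk) h1
  exact_mod_cast h3

/-- **Projective caps.** -/
theorem projBoundZ (hq : 3 ≤ Fintype.card F) {d : ℕ} (hd : 4 ≤ d)
    (K : Finset (Projectivization F (Fin (d + 1) → F))) (hK : IsCap F d K) :
    ((Fintype.card F : ℤ) - 1) * (2 * (Fintype.card F : ℤ) + d - 17) * K.card ≤
      (Fintype.card F : ℤ) ^ (d + 1) := by
  obtain ⟨e, rfl⟩ : ∃ e, d = e + 1 := ⟨d - 1, by omega⟩
  obtain ⟨h, hh⟩ := exists_few tCnt K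
  obtain ⟨A, hA, hc⟩ := proj_aff K hK h
  have h1 := affBoundZ hq hd A hA
  have h2 : (K.filter fun p => Inc F (e + 1 + 1) p h).card +
      (K.filter fun p => ¬ Inc F (e + 1 + 1) p h).card = K.card :=
    card_filter_add_card_filter_not _
  have hq' : (3 : ℤ) ≤ (Fintype.card F : ℤ) := by exact_mod_cast hq
  have h4' : (Fintype.card F : ℤ) * ((K.filter fun p => Inc F (e + 1 + 1) p h).card : ℤ) ≤ K.card := by
    exact_mod_cast hh
  set q : ℤ := (Fintype.card F : ℤ)
  have h3 : (q - 1) * K.card ≤ q * A.card := by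
    have h4 : q * ((K.filter fun p => Inc F (e + 1 + 1) p h).card : ℤ) ≤ K.card := h4'
    have h5 : ((K.filter fun p => Inc F (e + 1 + 1) p h).card : ℤ) +
      ((K.filter fun p => ¬ Inc F (e + 1 + 1) p h).card : ℤ) = K.card := by exact_mod_cast h2
    have h6 : ((K.filter fun p => ¬ Inc F (e + 1 + 1) p h).card : ℤ) ≤ A.card := by
      exact_mod_cast hc
    nlinarith
  rcases le_or_gt (2 * q + ((e + 1 : ℕ) : ℤ) - 17) 0 with h7 | h7
  · have h8 : (q - 1) * (2 * q + ((e + 1 : ℕ) : ℤ) - 17) * K.card ≤ 0 := by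
      have h9 : (q - 1) * (2 * q + ((e + 1 : ℕ) : ℤ) - 17) ≤ 0 :=
        mul_nonpos_of_nonneg_of_nonpos (by linarith) h7
      exact mul_nonpos_of_nonpos_of_nonneg h9 (by positivity)
    exact h8.trans (by positivity)
  · calc (q - 1) * (2 * q + ((e + 1 : ℕ) : ℤ) - 17) * K.card
        = (2 * q + ((e + 1 : ℕ) : ℤ) - 17) * ((q - 1) * K.card) := by ring
      _ ≤ (2 * q + ((e + 1 : ℕ) : ℤ) - 17) * (q * A.card) :=
          mul_le_mul_of_nonneg_left h3 h7.le
      _ = q * ((2 * q + ((e + 1 : ℕ) : ℤ) - 17) * A.card) := by ring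
      _ ≤ q * q ^ (e + 1) := mul_le_mul_of_nonneg_left h1 (by linarith)
      _ = q ^ (e + 1 + 1) := by ring

end Pool.Agent.CapHalf
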