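import Pool.Agent.CapHalf.Spec

/-!
# Second moment on the point side (helper92)
-/

noncomputable section

namespace Pool.Agent.CapHalf

open Finset Pool.Agent.Caps
open scoped Classical

private theorem par_card {P H : Type} [Fintype P] [Fintype H] {I : P → H → Prop} {q : ℝ} (hD : DD I q)
    (h h' : H) : (((univ : Finset P).filter fun p => I p h ∧ I p h').card : ℝ) =
      t2 q + (if h = h' then t3 q - t2 q else 0) := by
  by_cases e : h = h'
  · subst e
    rw [if_pos rfl]
    have := hD.one h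
    simp only [and_self]
    rw [this]
    ring
  · rw [if_neg e, hD.two h h' e, add_zero]

private theorem par_one {P H : Type} [Fintype P] [Fintype H] {I : P → H → Prop} {q : ℝ} (hD : DD I q)
    (w : H → ℝ) : ∑ p, T I w p = t3 q * ∑ h, w h := by
  unfold T
  rw [sum_comm, mul_sum]
  refine sum_congr rfl fun h _ => ?_
  rw [← sum_filter, sum_const, nsmul_eq_mul, hD.one h]

private theorem par_two {P H : Type} [Fintype P] [Fintype H] {I : P → H → Prop} {q : ℝ} (hD : DD I q)
    (w : H → ℝ) : ∑ p, T I w p ^ 2 = t2 q * (∑ h, w h) ^ 2 + (t3 q - t2 q) * ∑ h, w h ^ 2 := by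
  have h1 : ∀ p, T I w p ^ 2 = ∑ h, ∑ h', if I p h ∧ I p h' then w h * w h' else 0 := by
    intro p
    unfold T
    rw [pow_two, sum_mul_sum]
    refine sum_congr rfl fun h _ => sum_congr rfl fun h' _ => ?_
    by_cases a : I p h <;> by_cases b : I p h' <;> simp [a, b]
  have h2 : ∑ p, T I w p ^ 2 = ∑ h, ∑ h', (t2 q + (if h = h' then t3 q - t2 q else 0)) * (w h * w h') := by
    calc ∑ p, T I w p ^ 2 = ∑ p, ∑ h, ∑ h', (if I p h ∧ I p h' then w h * w h' else 0) :=
          sum_congr rfl fun p _ => h1 p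
      _ = ∑ h, ∑ p, ∑ h', (if I p h ∧ I p h' then w h * w h' else 0) := sum_comm
      _ = ∑ h, ∑ h', ∑ p, (if I p h ∧ I p h' then w h * w h' else 0) :=
          sum_congr rfl fun h _ => sum_comm
      _ = _ := by
          refine sum_congr rfl fun h _ => sum_congr rfl fun h' _ => ?_
          rw [← sum_filter, sum_const, nsmul_eq_mul, par_card hD h h']
  rw [h2]
  have h3 : ∀ h : H, ∑ h', (t2 q + (if h = h' then t3 q - t2 q else 0)) * (w h * w h') =
      t2 q * (w h * ∑ h', w h') + (t3 q - t2 q) * w h ^ 2 := by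
    intro h
    have e1 : ∀ h' : H, (t2 q + (if h = h' then t3 q - t2 q else 0)) * (w h * w h') =
        t2 q * (w h * w h') + (if h = h' then (t3 q - t2 q) * (w h * w h') else 0) := by
      intro h'
      split_ifs <;> ring
    rw [sum_congr rfl fun h' _ => e1 h', sum_add_distrib, sum_ite_eq, if_pos (mem_univ h), ← mul_sum, ← mul_sum]
    ring
  rw [sum_congr rfl fun h _ => h3 h, sum_add_distrib, ← mul_sum, ← mul_sum, ← sum_mul]
  ring

theorem tPar : S_Par := by
  intro P H _ _ I q hq hD w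
  have a1 := par_one hD w
  have a2 := par_two hD w
  have ht : 0 < t4 q := by unfold t4; positivity
  set W := ∑ h, w h with hW
  set m := t3 q * W / t4 q with hm
  have hmt : m * t4 q = t3 q * W := by rw [hm]; field_simp
  have e : ∑ p, (T I w p - m) ^ 2 = ∑ p, T I w p ^ 2 - 2 * m * ∑ p, T I w p + t4 q * m ^ 2 := by
    have e0 : ∀ p, (T I w p - m) ^ 2 = T I w p ^ 2 - 2 * m * T I w p + m ^ 2 := fun p => by ring
    rw [sum_congr rfl fun p _ => e0 p, sum_add_distrib, sum_sub_distrib, ← mul_sum, sum_const, nsmul_eq_mul,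
      card_univ, hD.all]
  rw [e, a1, a2]
  have e3 : t2 q * t4 q - t3 q ^ 2 = -q ^ 3 := by unfold t2 t3 t4; ring
  have e4 : t3 q - t2 q = q ^ 3 := by unfold t2 t3; ring
  have e5 : t2 q - t3 q ^ 2 / t4 q = -q ^ 3 / t4 q := by
    rw [← e3]; field_simp
  have e6 : -(2 * m * (t3 q * W)) + t4 q * m ^ 2 = -(t3 q ^ 2 / t4 q) * W ^ 2 := by
    rw [hm]; field_simp; ring
  calc t2 q * W ^ 2 + (t3 q - t2 q) * ∑ h, w h ^ 2 - 2 * m * (t3 q * W) + t4 q * m ^ 2
      = t2 q * W ^ 2 + (t3 q - t2 q) * (∑ h, w h ^ 2) + (-(2 * m * (t3 q * W)) + t4 q * m ^ 2) := by ring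
    _ = (t2 q - t3 q ^ 2 / t4 q) * W ^ 2 + (t3 q - t2 q) * ∑ h, w h ^ 2 := by rw [e6]; ring
    _ = q ^ 3 * (∑ h, w h ^ 2 - W ^ 2 / t4 q) := by rw [e5, e4]; ring

end Pool.Agent.CapHalf
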