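import Mathlib
import Pool.Agent.Caps.Defs

/-!
# Caps in PG(d, q), d at least 4, have at most q^(d-1)/2 + 3 q^(d-2) points

Every `S_X : Prop` of this file is to be proved as `theorem tX : S_X` (with the `S_Y` named under Uses as
explicit hypotheses) in `CapHalf/X.lean`. The docstrings contain the complete proofs.

Idea. `K` a cap in `PG(4,q)`, `k = |K|`, `n_H = |K ∩ H|` for the hyperplanes `H`, `Z_H = n_H - μ`, `μ` the mean.
The first three moments of `n_H` are known, because no three points of `K` are collinear. Let `T(x)` be the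
sum of `Z_H ^ 2` over the `H` through `x`. For `x ∈ K` it is a known constant `TK`, about `q^5 (κ - κ^2)` with
`κ = k / q^3`; for `x ∉ K` it is at most `TM`, about `q^5 (2κ - κ^2)`, because every line through `x` contains at most
two points of `K`; the mean is about `q^5 κ`. Let `U(x)` be the sum of `Z_H ^ 2` over the `H` through `x` with `Z_H < 0`,
`u = U - mean`, `g = T - mean`. Three hyperplanes always share a line, so `∑ g u^2 ≥ 0` up to a lower order term
(`S_Cub`). Comparing this with `g ≤ TM - mean` off `K` and `g = TK - mean` on `K` one gets `κ ≤ 1/2 + O(1/q)`.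
-/

noncomputable section

namespace Pool.Agent.CapHalf

open Finset Pool.Agent.Caps
open scoped Classical

/-! ## The numbers of points of PG(j, q) and the functions of `q` and `k` which occur -/

/-- `q + 1` -/
def t1 (q : ℝ) : ℝ := q + 1
/-- `q^2 + q + 1` -/
def t2 (q : ℝ) : ℝ := q ^ 2 + q + 1
/-- `q^3 + q^2 + q + 1` -/
def t3 (q : ℝ) : ℝ := q ^ 3 + q ^ 2 + q + 1
/-- `q^4 + q^3 + q^2 + q + 1` -/
def t4 (q : ℝ) : ℝ := q ^ 4 + q ^ 3 + q ^ 2 + q + 1

/-- the mean of `n_H` -/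
def mu (q k : ℝ) : ℝ := k * t3 q / t4 q
/-- the sum of `Z_H ^ 2` -/
def WW (q k : ℝ) : ℝ := q ^ 3 * (k - k ^ 2 / t4 q)
/-- the upper bound for `T(x)`, `x ∉ K` -/
def TM (q k : ℝ) : ℝ :=
  k * (k - 1) * t1 q + k * q ^ 2 + k * t2 q - 2 * mu q k * (k * t2 q) + mu q k ^ 2 * t3 q
/-- the value of `T(x)`, `x ∈ K` -/
def TK (q k : ℝ) : ℝ :=
  t3 q + 3 * (k - 1) * t2 q + (k - 1) * (k - 2) * t1 q - 2 * mu q k * (t3 q + (k - 1) * t2 q) +
    mu q k ^ 2 * t3 q
/-- `TM` minus the mean of `T` -/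
def GG (q k : ℝ) : ℝ := TM q k - t3 q * WW q k / t4 q
/-- the constant of `S_Cub`, negative, about `-1/q` (exactly `- q^2 (q^5 + 1) / t4 ^ 2`) -/
def c0 (q : ℝ) : ℝ := t1 q - 3 * t3 q * t2 q / t4 q + 2 * t3 q ^ 3 / t4 q ^ 2
/-- minus the sum of `Z_H ^ 3` -/
def BB (q k : ℝ) : ℝ :=
  -(k * t3 q + 3 * (k * (k - 1)) * t2 q + k * (k - 1) * (k - 2) * t1 q -
    3 * mu q k * (k * t3 q + k * (k - 1) * t2 q) + 2 * mu q k ^ 3 * t4 q)

/-! ## Abstract incidence structures -/

variable {P H : Type} [Fintype P] [Fintype H]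

/-- the sum of the weights of the hyperplanes through `p` -/
def T (I : P → H → Prop) (w : H → ℝ) (p : P) : ℝ := ∑ h, if I p h then w h else 0

/-- the number of points of `K` on the hyperplane `h` -/
def nn (I : P → H → Prop) (K : Finset P) (h : H) : ℝ := ((K.filter fun p => I p h).card : ℝ)

/-- The axioms used for intersections of hyperplanes. -/
structure DD (I : P → H → Prop) (q : ℝ) : Prop where
  one : ∀ h, (((univ : Finset P).filter fun p => I p h).card : ℝ) = t3 q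
  two : ∀ h h', h ≠ h' → (((univ : Finset P).filter fun p => I p h ∧ I p h').card : ℝ) = t2 q
  three : ∀ h h' h'', t1 q ≤ (((univ : Finset P).filter fun p => I p h ∧ I p h' ∧ I p h'').card : ℝ)
  all : (Fintype.card P : ℝ) = t4 q

/-- The axioms used for hyperplanes through points; `K` is a cap. -/
structure CC (I : P → H → Prop) (q : ℝ) (K : Finset P) : Prop where
  one : ∀ p, (((univ : Finset H).filter fun h => I p h).card : ℝ) = t3 q
  two : ∀ p p', p ≠ p' → (((univ : Finset H).filter fun h => I p h ∧ I p' h).card : ℝ) = t2 q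
  three : ∀ p ∈ K, ∀ p' ∈ K, ∀ p'' ∈ K, p ≠ p' → p ≠ p'' → p' ≠ p'' →
    (((univ : Finset H).filter fun h => I p h ∧ I p' h ∧ I p'' h).card : ℝ) = t1 q
  off : ∀ x, x ∉ K → ∑ p ∈ K, ∑ p' ∈ K.erase p,
    (((univ : Finset H).filter fun h => I x h ∧ I p h ∧ I p' h).card : ℝ) ≤
      (K.card : ℝ) * (K.card - 1) * t1 q + K.card * q ^ 2
  all : (Fintype.card H : ℝ) = t4 q

/-- (60 lines) **Second moment on the point side.** Uses nothing.
PROOF. Write `T p = ∑_h [I p h] w h`, `W = ∑ w`. `∑_p T p = t3 W` (exchange the sums, `DD.one`).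
`∑_p (T p)^2 = ∑_{h,h'} w h w h' #{p | I p h ∧ I p h'} = t2 W^2 + (t3 - t2) ∑ w^2` (`DD.two` for `h ≠ h'`, `DD.one` for
`h = h'`; write the count as `t2 + (t3 - t2) [h = h']`), `t3 - t2 = q^3`. With `m = t3 W / t4`:
`∑ (T - m)^2 = ∑ T^2 - 2 m t3 W + t4 m^2 = q^3 ∑ w^2 + W^2 (t2 - t3^2/t4)` and `t2 t4 - t3^2 = -q^3`. -/
def S_Par : Prop :=
  ∀ (P H : Type) [Fintype P] [Fintype H] (I : P → H → Prop) (q : ℝ), 2 ≤ q → DD I q →
    ∀ w : H → ℝ, ∑ p, (T I w p - t3 q * (∑ h, w h) / t4 q) ^ 2 =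
      q ^ 3 * (∑ h, w h ^ 2 - (∑ h, w h) ^ 2 / t4 q)

/-- (120 lines) **Third moment on the point side.** Uses nothing.
PROOF. Write `T_i p = ∑_h [I p h] w_i h`, `W_i = ∑ w_i`, `m_i = t3 W_i / t4`. As in `S_Par`: `∑_p T_i = t3 W_i`,
`∑_p T_i T_j = q^3 ∑_h w_i w_j + t2 W_i W_j`, `∑_p T_1 T_2 T_3 = ∑_{h,h',h''} w_1 h w_2 h' w_3 h'' #{p | I p h ∧ I p h' ∧ I p h''}`, and the
number is at least `t1 + q^2 ([h = h'] + [h = h''] + [h' = h'']) + (q^3 - 2 q^2) [h = h' = h'']`: if all are distinct this is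
`DD.three`; if exactly two are equal the number is `t2 = t1 + q^2`; if all are equal it is `t3 = t1 + 3 q^2 + (q^3 - 2 q^2)`. As the
weights are nonnegative,
`∑ T_1 T_2 T_3 ≥ t1 W_1 W_2 W_3 + q^2 (P_12 W_3 + P_13 W_2 + P_23 W_1) + (q^3 - 2 q^2) E`, `P_ij = ∑_h w_i w_j ≥ 0`,
`E = ∑_h w_1 w_2 w_3 ≥ 0`. Expanding, `∑ (T_1 - m_1)(T_2 - m_2)(T_3 - m_3) = ∑ T_1 T_2 T_3 - ∑ over the three pairs m_l ∑ T_i T_j +
2 t4 m_1 m_2 m_3` (use `∑ T_i = t4 m_i`), which is
`≥ W_1 W_2 W_3 (t1 - 3 t3 t2/t4 + 2 t3^3/t4^2) + (q^2 - q^3 t3/t4)(P_12 W_3 + P_13 W_2 + P_23 W_1) + (q^3 - 2 q^2) E`, and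
`q^2 - q^3 t3/t4 = q^2/t4 > 0` (as `t4 = q t3 + 1`), `q^3 - 2 q^2 ≥ 0`. -/
def S_Cub : Prop :=
  ∀ (P H : Type) [Fintype P] [Fintype H] (I : P → H → Prop) (q : ℝ), 2 ≤ q → DD I q →
    ∀ w₁ w₂ w₃ : H → ℝ, (∀ h, 0 ≤ w₁ h) → (∀ h, 0 ≤ w₂ h) → (∀ h, 0 ≤ w₃ h) →
      c0 q * ((∑ h, w₁ h) * (∑ h, w₂ h) * (∑ h, w₃ h)) ≤
        ∑ p, (T I w₁ p - t3 q * (∑ h, w₁ h) / t4 q) * (T I w₂ p - t3 q * (∑ h, w₂ h) / t4 q) *
          (T I w₃ p - t3 q * (∑ h, w₃ h) / t4 q)

/-- (150 lines) **Moments on the hyperplane side.** Uses nothing.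
PROOF. `n_h = ∑_{p ∈ K} [I p h]`. (1) exchange, `CC.one`. (2) `n_h^2 = ∑_{p, p' ∈ K} [I p h ∧ I p' h]`; the pairs `p = p'` give
`k t3`, the `k (k-1)` others `t2` each. (3) `n_h^3` = sum over the triples of `K`: all equal: `k t3`; exactly two equal: `3 k (k-1)`
triples, `t2` each; distinct: `k (k-1) (k-2)` triples, `t1` each (`CC.three`). (It may be easier to use
`n^3 = n(n-1)(n-2) + 3 n(n-1) + n` or to sum first over the third point.) (4) `x ∈ K`: `∑_h [I x h] n_h = t3 + (k-1) t2` and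
`∑_h [I x h] n_h^2 = ∑_{p, p' ∈ K} #{h | I x h ∧ I p h ∧ I p' h}`: `(x,x)`: `t3`; `(x,p)`, `(p,x)`, `(p,p)`, `p ≠ x`: `t2` each, `3 (k-1)`
pairs; `p ≠ p'`, both `≠ x`: `t1`, `(k-1)(k-2)` pairs. Expand `(n - μ)^2`. (5) `x ∉ K`: `∑_h [I x h] n_h = k t2`, and
`∑_h [I x h] n_h^2 = ∑_{p ∈ K} #{h | I x h ∧ I p h} + ∑_{p ≠ p'} ... ≤ k t2 + k (k-1) t1 + k q^2` (`CC.off`). -/
def S_Mom : Prop :=
  ∀ (P H : Type) [Fintype P] [Fintype H] (I : P → H → Prop) (q : ℝ) (K : Finset P), CC I q K →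
    (∑ h, nn I K h = K.card * t3 q) ∧
    (∑ h, nn I K h ^ 2 = K.card * t3 q + (K.card : ℝ) * (K.card - 1) * t2 q) ∧
    (∑ h, nn I K h ^ 3 = K.card * t3 q + 3 * ((K.card : ℝ) * (K.card - 1)) * t2 q +
      (K.card : ℝ) * (K.card - 1) * (K.card - 2) * t1 q) ∧
    (∀ x ∈ K, T I (fun h => (nn I K h - mu q K.card) ^ 2) x = TK q K.card) ∧
    ∀ x, x ∉ K → T I (fun h => (nn I K h - mu q K.card) ^ 2) x ≤ TM q K.card

/-- (200 lines) **The main inequality.** Uses `S_Par`, `S_Cub`, `S_Mom`.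
PROOF. Let `k = |K|`, `μ = mu q k`, `Z h = nn h - μ`, `w = Z^2`, `v h = Z h ^ 2` if `Z h < 0` and `0` otherwise, `W = ∑ w`, `V = ∑ v`,
`g p = T w p - t3 W/t4`, `u p = T v p - t3 V/t4`, `A = ∑_{Z h < 0} |Z h|^3 = ∑_h v h * (- Z h)`. By (1)-(3) of `S_Mom`: `∑ Z = 0` (`|H| = t4`),
`W = WW q k` (`t3^2 - t2 t4 = q^3`), `- ∑ Z^3 = BB q k`; hence `A ≥ BB`. `|Z h| ≤ μ` when `Z h < 0` (`nn ≥ 0`), so `∑ v^2 ≤ μ A`.
`D := TM - TK = q^2 (k (1 - 2/t4) - (q - 2)) > 0` (as `q ≤ k`, `3 ≤ q`). For every `p` `T w p ≤ TM` (on `K` it is `TK ≤ TM`), so the mean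
`t3 W/t4` of `T w` (`∑_p T w p = t3 W`, or from `S_Par`-type computation; `|P| = t4`) is `≤ TM`: `G := GG q k ≥ 0`.
`∑_{p ∈ K} u p = ∑_h v h nn h - k t3 V/t4 = ∑ v h Z h = - A`, so `Q := ∑_{p ∈ K} u^2 ≥ A^2/k` (Cauchy-Schwarz).
`R := ∑_p u^2 ≤ q^3 ∑ v^2 ≤ q^3 μ A` (`S_Par`). `S_Cub` with `(w, v, v)`: `∑_p g u^2 ≥ c0 W V^2 ≥ c0 W^3` (`c0 ≤ 0`, `0 ≤ V ≤ W`). On `K` `g = G - D`
(`g = TK - t3 W/t4 = TK - TM + G`), off `K` `g ≤ G`. So `c0 W^3 ≤ ∑ g u^2 ≤ G (R - Q) + (G - D) Q = G R - D Q`, that is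
`D A^2/k ≤ D Q ≤ G R - c0 W^3 ≤ G q^3 μ A - c0 W^3`. Finally the function `f(A) = D A^2/k - G q^3 μ A + c0 W^3` is convex, `f(0) ≤ 0`, `f(A) ≤ 0`
and `0 ≤ BB ≤ A`, so `f(BB) ≤ 0`. -/
def S_Ana : Prop :=
  ∀ (P H : Type) [Fintype P] [Fintype H] (I : P → H → Prop) (q : ℝ) (K : Finset P), 3 ≤ q →
    DD I q → CC I q K → q ≤ K.card → 0 ≤ BB q K.card →
    (TM q K.card - TK q K.card) * BB q K.card ^ 2 ≤
      K.card * q ^ 3 * mu q K.card * GG q K.card * BB q K.card + K.card * (-c0 q) * WW q K.card ^ 3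

/-- (100 lines) **The numerical inequality.** Uses nothing.
PROOF. With `x = k / t4`, `D = t4 q`: `μ = x t3`, `WW = q^3 k (1 - x)`, `-c0 = q^2 (q^5 + 1)/D^2`,
`BB = k q^2 b`, `b = (q^5 + 1) x^2 - 3 x - (q - 2)`, `TM - TK = q^2 ((D - 2) x - (q - 2))`, and `GG = q^2 g` with an explicit
quadratic `g` in `x`. Put `q = 3 + r`, `k = (q^3 + 6 q^2)/2 + s` with `r ≥ 0`, `s > 0`. After clearing the denominators (multiply by `D^6`) the
difference left side minus right side is a polynomial in `r` and `s` all of whose coefficients are positive (checked by computer), and the same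
holds for `BB * D^2`. -/
def S_Num : Prop :=
  ∀ q k : ℝ, 3 ≤ q → q ^ 3 + 6 * q ^ 2 < 2 * k → 0 ≤ BB q k ∧
    k * q ^ 3 * mu q k * GG q k * BB q k + k * (-c0 q) * WW q k ^ 3 <
      (TM q k - TK q k) * BB q k ^ 2

/-! ## Projective spaces -/

instance finiteProj (F : Type) [Field F] [Fintype F] (n : ℕ) :
    Finite (Projectivization F (Fin n → F)) := by
  unfold Projectivization
  infer_instance

instance fintypeProj (F : Type) [Field F] [Fintype F] (n : ℕ) :
    Fintype (Projectivization F (Fin n → F)) := Fintype.ofFinite _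

/-- `p` lies on the hyperplane with equation `h` -/
def Inc (F : Type) [Field F] (n : ℕ) (p h : Projectivization F (Fin n → F)) : Prop :=
  p.rep ⬝ᵥ h.rep = 0

/-- (120 lines) **Counting hyperplanes through points.** Uses nothing.
PROOF. Let `L : (Fin n → F) →ₗ (Fin j → F)`, `L y i = v i ⬝ᵥ y`. The set in question is the set of the points of the projective space of `ker L`
(a point `h` satisfies the equations iff `h.rep ∈ ker L`; `Projectivization.map` of `(ker L).subtype` is a bijection from `ℙ F (ker L)` to it).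
`Nat.card (ℙ F M) = ∑_{i < finrank M} q^i` (`Projectivization.card_of_finrank`). `finrank (ker L) = n - finrank (range L) ≥ n - j`, with
equality if the `v i` are linearly independent: then `L` is surjective (its matrix has rank `j`: `Matrix.rank`, or the
transpose map is injective), so `finrank (ker L) = n - j`. -/
def S_Cnt : Prop :=
  ∀ (F : Type) [Field F] [Fintype F] (n j : ℕ) (v : Fin j → (Fin n → F)),
    (∑ i ∈ range (n - j), Fintype.card F ^ i ≤
      Nat.card {h : Projectivization F (Fin n → F) // ∀ i, v i ⬝ᵥ h.rep = 0}) ∧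
    (LinearIndependent F v →
      Nat.card {h : Projectivization F (Fin n → F) // ∀ i, v i ⬝ᵥ h.rep = 0} =
        ∑ i ∈ range (n - j), Fintype.card F ^ i)

/-- (200 lines) **The axioms hold in PG(4, q).** Uses `S_Cnt`.
PROOF. `n = 5`; `t4, t3, t2, t1` are `∑_{i < 5 - j} q^i`, `j = 0, 1, 2, 3`. `Inc` is symmetric (`dotProduct_comm`). One point: `rep ≠ 0` is
linearly independent. Two distinct points: the representatives are linearly independent (`Projectivization.independent_pair_iff_ne` or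
directly). `DD.three` is the first part of `S_Cnt` with `j = 3`. `CC.three`: three distinct points of the cap `K` have linearly independent
representatives: otherwise the span `W` of the first two, of dimension 2, contains the third, against `IsCap`. `CC.off`: `x ∉ K`. For
`p ≠ p'` in `K` the number of `h` through `x`, `p`, `p'` is `t1` if `x, p, p'` are independent, and `t2 = t1 + q^2` if they are dependent (then the condition on
`p'` follows from the ones on `x` and `p`, as `p'` is in the span of `x` and `p`, which are distinct). For every `p ∈ K` there is at most one `p' ∈ K`,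
`p' ≠ p`, in the span of `x` and `p` (`IsCap` for this span, of dimension 2: `p`, `p'`, `p''` would be three points), so the sum is
`≤ k (k-1) t1 + k q^2`. -/
def S_Geo : Prop :=
  ∀ (F : Type) [Field F] [Fintype F] (K : Finset (Projectivization F (Fin 5 → F))),
    IsCap F 4 K → DD (Inc F 5) (Fintype.card F) ∧ CC (Inc F 5) (Fintype.card F) K

/-- (150 lines) **Recursion for the dimension.** Uses `S_Cnt`.
PROOF. `n = d + 2`. Let `θ = ∑_{i ≤ d} q^i`. Double counting of the pairs `(p, h)`, `p ∈ K`, `Inc p h`: every `p` is on `θ` hyperplanes (`S_Cnt`, `j = 1`),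
there are `q θ + 1 = ∑_{i ≤ d+1} q^i` hyperplanes (`j = 0`). For every hyperplane `h` the points of `K` on it form a cap of `PG(d, q)`: choose a linear
equivalence `e` from the subspace `h.rep ⬝ᵥ y = 0`, of dimension `d + 1`, to `Fin (d+1) → F`, and take the images of the points (injective); a
two-dimensional subspace `W'` corresponds to a two-dimensional subspace `W` of `Fin (d+2) → F`. So `2 k θ ≤ (q θ + 1) A`, and `A < θ` gives
`2 k θ < (q A + 1) θ`, hence `2 k ≤ q A`. -/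
def S_Rec : Prop :=
  ∀ (F : Type) [Field F] [Fintype F] (d A : ℕ), A < ∑ i ∈ range (d + 1), Fintype.card F ^ i →
    (∀ K : Finset (Projectivization F (Fin (d + 1) → F)), IsCap F d K → 2 * K.card ≤ A) →
    ∀ K : Finset (Projectivization F (Fin (d + 1 + 1) → F)), IsCap F (d + 1) K →
      2 * K.card ≤ Fintype.card F * A

/-- The case of dimension four. -/
theorem four (hAna : S_Ana) (hNum : S_Num) (hGeo : S_Geo) (F : Type) [Field F] [Fintype F]
    (hq : 3 ≤ Fintype.card F) (K : Finset (Projectivization F (Fin 5 → F))) (hK : IsCap F 4 K) :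
    2 * K.card ≤ Fintype.card F ^ 3 + 6 * Fintype.card F ^ 2 := by
  by_contra hlt
  rw [not_le] at hlt
  obtain ⟨h1, h2⟩ := hGeo F K hK
  have hq' : (3 : ℝ) ≤ (Fintype.card F : ℝ) := by exact_mod_cast hq
  have hlt' : (Fintype.card F : ℝ) ^ 3 + 6 * (Fintype.card F : ℝ) ^ 2 < 2 * (K.card : ℝ) := by
    exact_mod_cast hlt
  obtain ⟨hB, hN⟩ := hNum _ _ hq' hlt'
  have hk : (Fintype.card F : ℝ) ≤ K.card := by nlinarith
  exact absurd (hAna _ _ _ _ K hq' h1 h2 hk hB) (not_le.2 hN)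

/-- **All dimensions at least four.** -/
theorem main (hAna : S_Ana) (hNum : S_Num) (hGeo : S_Geo) (hRec : S_Rec) (F : Type) [Field F]
    [Fintype F] (hq : 3 ≤ Fintype.card F) (e : ℕ) :
    ∀ K : Finset (Projectivization F (Fin (e + 4 + 1) → F)), IsCap F (e + 4) K →
      2 * K.card ≤ Fintype.card F ^ (e + 3) + 6 * Fintype.card F ^ (e + 2) := by
  induction e with
  | zero => exact four hAna hNum hGeo F hq
  | succ e ih =>
    intro K hK
    have hA : Fintype.card F ^ (e + 3) + 6 * Fintype.card F ^ (e + 2) <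
        ∑ i ∈ range (e + 4 + 1), Fintype.card F ^ i := by
      rw [sum_range_succ, sum_range_succ, sum_range_succ]
      have h0 : 0 < ∑ i ∈ range (e + 2), Fintype.card F ^ i :=
        sum_pos (fun i _ => pow_pos (by omega) i) ⟨0, mem_range.2 (by omega)⟩
      have h1 : 6 * Fintype.card F ^ (e + 2) ≤
          Fintype.card F ^ (e + 2) + Fintype.card F ^ (e + 4) := by
        have h2 : Fintype.card F ^ (e + 4) = Fintype.card F ^ 2 * Fintype.card F ^ (e + 2) := by
          ring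
        rw [h2]
        have h3 : 9 ≤ Fintype.card F ^ 2 := by nlinarith
        nlinarith [pow_pos (show 0 < Fintype.card F by omega) (e + 2)]
      omega
    have h := hRec F (e + 4) _ hA ih K hK
    calc 2 * K.card ≤ Fintype.card F * (Fintype.card F ^ (e + 3) + 6 * Fintype.card F ^ (e + 2)) := h
      _ = Fintype.card F ^ (e + 1 + 3) + 6 * Fintype.card F ^ (e + 1 + 2) := by ring

end Pool.Agent.CapHalf
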